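import Pool.Agent.Q147.MO.Rough

/-!
# The counting function of the greedy basis of the rough monomials: analytic part
-/

set_option autoImplicit false

namespace Pool.Agent.Q147.MO

open Finset Filter Topology
open Pool.Agent.Q147.MM
open Pool.Agent.Q166.MM (step geo tele tendsto_logN tendsto_loglog)
open Pool.Agent.Q211.MM (log_gt_one)

theorem z2_le_zz {N : ℕ} (hN : 3 ≤ N) : z2 N ≤ zz N := by
  have h1 := log_gt_one hN
  refine Nat.floor_le_floor ?_
  refine div_le_div_of_nonneg_left (Real.sqrt_nonneg _) (by linarith) ?_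
  nlinarith

theorem le_z2 {N y : ℕ} (hN : 17 ^ 16 ≤ N) (hy : y ^ 4 ≤ N) : y ≤ z2 N := by
  by_contra h
  push Not at h
  have h1 := le_z2_pow hN
  have h2 : z2 N ^ 4 < y ^ 4 := Nat.pow_lt_pow_left h (by norm_num)
  omega

/-- the lower bound for the sum, with `z2` -/
theorem a1z : ∀ κ : ℝ, 0 < κ → κ < 1 → ∀ I y1 : ℕ, ∀ ε : ℝ, 0 < ε → ε < 1 →
  ∃ N1 : ℕ, ∀ N : ℕ, N1 ≤ N →
    (1 - ε) * (∑ i ∈ range I, (1 / 2 : ℝ) ^ ((i : ℝ) + 1 - κ) / ((i : ℝ) + 1 - κ)) /
        (Real.log N) ^ κ ≤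
      ∑ y ∈ Ioc y1 (z2 N), 1 / ((y : ℝ) * (Real.log y) ^ κ * Real.log ((N : ℝ) / y)) := by
  intro κ hκ0 hκ1 I y1 ε hε0 hε1
  -- `y2`
  obtain ⟨y2, hy21, hy2e⟩ : ∃ y2 : ℕ, y1 ≤ y2 ∧ Real.exp I ≤ y2 :=
    ⟨max y1 ⌈Real.exp I⌉₊, le_max_left _ _,
      (Nat.le_ceil _).trans (by exact_mod_cast le_max_right _ _)⟩
  set P : ℝ := ∑ i ∈ range I, (1 / 2 : ℝ) ^ ((i : ℝ) + 1 - κ) / ((i : ℝ) + 1 - κ) with hP
  let q : ℕ → ℝ := fun N => ∑ i ∈ range I,
    ((1 / 2 - 2 * (Real.log (Real.log (N : ℝ)) / Real.log (N : ℝ))) ^ ((i : ℝ) + 1 - κ) /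
      ((i : ℝ) + 1 - κ) -
      (Real.log ((y2 : ℝ) + 1)) ^ ((i : ℝ) + 1 - κ) / ((i : ℝ) + 1 - κ) /
        (Real.log (N : ℝ)) ^ ((i : ℝ) + 1 - κ))
  have hq : Tendsto q atTop (𝓝 P) := by
    rw [hP]
    apply tendsto_finsetSum
    intro i _
    have hi0 : (0 : ℝ) ≤ i := Nat.cast_nonneg i
    have hs : 0 < (i : ℝ) + 1 - κ := by linarith
    have t1 : Tendsto (fun N : ℕ =>
        (1 / 2 - 2 * (Real.log (Real.log (N : ℝ)) / Real.log (N : ℝ))) ^ ((i : ℝ) + 1 - κ) /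
          ((i : ℝ) + 1 - κ)) atTop
        (𝓝 ((1 / 2 - 2 * 0) ^ ((i : ℝ) + 1 - κ) / ((i : ℝ) + 1 - κ))) := by
      apply Tendsto.div_const
      exact ((tendsto_loglog.const_mul 2).const_sub (1 / 2)).rpow_const (Or.inr hs.le)
    have t2 : Tendsto (fun N : ℕ =>
        (Real.log ((y2 : ℝ) + 1)) ^ ((i : ℝ) + 1 - κ) / ((i : ℝ) + 1 - κ) /
        (Real.log (N : ℝ)) ^ ((i : ℝ) + 1 - κ)) atTop (𝓝 0) :=
      ((tendsto_rpow_atTop hs).comp tendsto_logN).const_div_atTop _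
    have t3 := t1.sub t2
    simpa using t3
  have hqe : ∀ᶠ N in atTop, (1 - ε) * P ≤ q N := by
    rcases Nat.eq_zero_or_pos I with hI | hI
    · filter_upwards with N
      simp [hP, q, hI]
    · have hPpos : 0 < P := by
        rw [hP]
        apply Finset.sum_pos
        · intro i _
          have hi0 : (0 : ℝ) ≤ i := Nat.cast_nonneg i
          have hs : 0 < (i : ℝ) + 1 - κ := by linarith
          positivity
        · exact ⟨0, Finset.mem_range.2 hI⟩
      have : (1 - ε) * P < P := by nlinarith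
      filter_upwards [hq.eventually (lt_mem_nhds this)] with N hN
      exact hN.le
  have hlog := tendsto_logN
  have hzz : ∀ᶠ N : ℕ in atTop, y2 ≤ z2 N := by
    filter_upwards [eventually_ge_atTop (17 ^ 16), eventually_ge_atTop (y2 ^ 4)] with N h1 h2
    by_contra h3
    push Not at h3
    have h4 := le_z2_pow h1
    have h5 : z2 N ^ 4 < y2 ^ 4 := Nat.pow_lt_pow_left h3 (by norm_num)
    omega
  have hlog1 := hlog.eventually_ge_atTop 1
  have hllh : ∀ᶠ N : ℕ in atTop, Real.log (Real.log (N : ℝ)) / Real.log (N : ℝ) < 1 / 4 :=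
    tendsto_loglog.eventually (gt_mem_nhds (by norm_num))
  obtain ⟨N1, hN1⟩ := eventually_atTop.1
    (hqe.and (hzz.and (hlog1.and (hllh.and (eventually_gt_atTop 1)))))
  refine ⟨N1, fun N hN => ?_⟩
  obtain ⟨hqN, hzN, hlN, hllN, hN1'⟩ := hN1 N hN
  have hNr : (1 : ℝ) < N := by exact_mod_cast hN1'
  have hN0 : (0 : ℝ) < N := by linarith
  set L := Real.log (N : ℝ) with hLdef
  have hL0 : 0 < L := by linarith
  set z := z2 N with hz
  have hzlt : (z : ℝ) < N := by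
    have h1 : (z : ℝ) ≤ √(N : ℝ) / L ^ 2 := by
      rw [hz]
      exact Nat.floor_le (by positivity)
    have h2 : √(N : ℝ) / L ^ 2 ≤ √(N : ℝ) := div_le_self (Real.sqrt_nonneg _) (one_le_pow₀ hlN)
    have h3 : √(N : ℝ) < N := by
      rw [Real.sqrt_lt' hN0]
      nlinarith
    linarith
  have hz1 : √(N : ℝ) / L ^ 2 ≤ (z : ℝ) + 1 := by
    rw [hz]
    exact (Nat.lt_floor_add_one _).le
  -- nonnegativity of the terms
  have hnn : ∀ y ∈ Ioc y1 z, 0 ≤ 1 / ((y : ℝ) * (Real.log y) ^ κ * Real.log ((N : ℝ) / y)) := by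
    intro y hy
    rw [mem_Ioc] at hy
    have hy1 : (1 : ℝ) ≤ y := by exact_mod_cast (by omega : 1 ≤ y)
    have hyz : (y : ℝ) ≤ z := by exact_mod_cast hy.2
    have h1 : 0 ≤ Real.log y := Real.log_nonneg hy1
    have h2 : 0 ≤ Real.log ((N : ℝ) / y) := by
      apply Real.log_nonneg
      rw [le_div_iff₀ (by linarith)]
      linarith
    positivity
  rw [div_le_iff₀ (by positivity)]
  refine hqN.trans ?_
  have hsub : ∑ y ∈ Ioc y2 z, 1 / ((y : ℝ) * (Real.log y) ^ κ * Real.log ((N : ℝ) / y)) ≤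
      ∑ y ∈ Ioc y1 z, 1 / ((y : ℝ) * (Real.log y) ^ κ * Real.log ((N : ℝ) / y)) := by
    apply Finset.sum_le_sum_of_subset_of_nonneg
    · exact Finset.Ioc_subset_Ioc_left hy21
    · intro y hy _
      exact hnn y hy
  refine le_trans ?_ (mul_le_mul_of_nonneg_right hsub (by positivity))
  -- the termwise estimate
  have hterm : ∀ y ∈ Ioc y2 z, ∑ i ∈ range I, (1 / L ^ (i + 1)) *
      ((Real.log (((y + 1 : ℕ) : ℝ))) ^ ((i : ℝ) + 1 - κ) / ((i : ℝ) + 1 - κ) -
        (Real.log y) ^ ((i : ℝ) + 1 - κ) / ((i : ℝ) + 1 - κ)) ≤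
      1 / ((y : ℝ) * (Real.log y) ^ κ * Real.log ((N : ℝ) / y)) := by
    intro y hy
    rw [mem_Ioc] at hy
    have hy2' : (y2 : ℝ) + 1 ≤ y := by exact_mod_cast hy.1
    have hyz : (y : ℝ) ≤ z := by exact_mod_cast hy.2
    have hexp1 : (1 : ℝ) ≤ Real.exp I := Real.one_le_exp (Nat.cast_nonneg I)
    have hy1 : (1 : ℝ) < y := by linarith
    have hy0 : (0 : ℝ) < y := by linarith
    have hl0 : 0 < Real.log y := Real.log_pos hy1
    have hlL : Real.log y < L := Real.log_lt_log hy0 (by linarith)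
    have hdiv : Real.log ((N : ℝ) / y) = L - Real.log y := by
      rw [Real.log_div hN0.ne' hy0.ne']
    rw [hdiv]
    have hg := geo L (Real.log y) hL0 hl0.le hlL I
    have hsum : ∑ i ∈ range I, (1 / L ^ (i + 1)) *
      ((Real.log (((y + 1 : ℕ) : ℝ))) ^ ((i : ℝ) + 1 - κ) / ((i : ℝ) + 1 - κ) -
        (Real.log y) ^ ((i : ℝ) + 1 - κ) / ((i : ℝ) + 1 - κ)) ≤
        ∑ i ∈ range I, ((Real.log y) ^ i / L ^ (i + 1)) * (1 / ((y : ℝ) * (Real.log y) ^ κ)) := by
      apply Finset.sum_le_sum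
      intro i hi
      rw [Finset.mem_range] at hi
      have hst := step κ hκ0 hκ1 i I hi (y : ℝ) (by linarith)
      have e1 : ((y + 1 : ℕ) : ℝ) = (y : ℝ) + 1 := by push_cast; ring
      rw [e1]
      refine (mul_le_mul_of_nonneg_left hst (by positivity)).trans (le_of_eq ?_)
      rw [Real.rpow_sub hl0, Real.rpow_natCast]
      field_simp
    refine hsum.trans ?_
    rw [← Finset.sum_mul]
    refine (mul_le_mul_of_nonneg_right hg (by positivity)).trans (le_of_eq ?_)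
    have : L - Real.log y ≠ 0 := by linarith
    field_simp
  have hsum2 := Finset.sum_le_sum hterm
  refine le_trans ?_ (mul_le_mul_of_nonneg_right hsum2 (by positivity))
  rw [Finset.sum_comm, Finset.sum_mul]
  apply Finset.sum_le_sum
  intro i hi
  rw [Finset.mem_range] at hi
  rw [← Finset.mul_sum, tele (fun y : ℕ => (Real.log (y : ℝ)) ^ ((i : ℝ) + 1 - κ) /
    ((i : ℝ) + 1 - κ)) y2 z hzN]
  have hi0 : (0 : ℝ) ≤ i := Nat.cast_nonneg i
  set s : ℝ := (i : ℝ) + 1 - κ with hs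
  have hs0 : 0 < s := by rw [hs]; linarith
  have hpow : (1 / L ^ (i + 1)) * L ^ κ = 1 / L ^ s := by
    rw [hs, Real.rpow_sub hL0, show ((i : ℝ) + 1) = ((i + 1 : ℕ) : ℝ) by push_cast; ring,
      Real.rpow_natCast]
    field_simp
  have hcomm : 1 / L ^ (i + 1) * ((Real.log ((z + 1 : ℕ) : ℝ)) ^ s / s -
      (Real.log ((y2 + 1 : ℕ) : ℝ)) ^ s / s) * L ^ κ =
      (Real.log ((z + 1 : ℕ) : ℝ)) ^ s / L ^ s / s - (Real.log ((y2 + 1 : ℕ) : ℝ)) ^ s / s / L ^ s := by
    calc 1 / L ^ (i + 1) * ((Real.log ((z + 1 : ℕ) : ℝ)) ^ s / s -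
      (Real.log ((y2 + 1 : ℕ) : ℝ)) ^ s / s) * L ^ κ =
        ((1 / L ^ (i + 1)) * L ^ κ) * ((Real.log ((z + 1 : ℕ) : ℝ)) ^ s / s -
      (Real.log ((y2 + 1 : ℕ) : ℝ)) ^ s / s) := by ring
      _ = _ := by
        rw [hpow]
        have : 0 < L ^ s := Real.rpow_pos_of_pos hL0 s
        field_simp
  rw [hcomm]
  have e2 : ((y2 + 1 : ℕ) : ℝ) = (y2 : ℝ) + 1 := by push_cast; ring
  rw [e2]
  apply sub_le_sub_right
  apply div_le_div_of_nonneg_right _ hs0.le
  rw [← Real.div_rpow _ hL0.le]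
  · apply Real.rpow_le_rpow
    · linarith
    · rw [le_div_iff₀ hL0]
      have e3 : Real.log (√(N : ℝ) / L ^ 2) ≤ Real.log ((z + 1 : ℕ) : ℝ) := by
        apply Real.log_le_log
        · have := Real.sqrt_pos.2 hN0
          positivity
        · push_cast
          exact hz1
      rw [Real.log_div (Real.sqrt_pos.2 hN0).ne' (pow_pos hL0 2).ne', Real.log_sqrt hN0.le,
        Real.log_pow] at e3
      push_cast at e3
      have e4 : (1 / 2 - 2 * (Real.log L / L)) * L = L / 2 - 2 * Real.log L := by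
        field_simp
      rw [e4]
      push_cast
      exact e3
    · exact hs0.le
  · apply Real.log_nonneg
    push_cast
    have : (0 : ℝ) ≤ z := Nat.cast_nonneg z
    linarith


/-- the sum over the greedy basis, with `z2` -/
theorem a5z : ∀ κ : ℝ, 0 < κ → κ < 1 →
  (∃ I : ℕ, 1 < ∑ i ∈ range I, (1 / 2 : ℝ) ^ ((i : ℝ) + 1 - κ) / ((i : ℝ) + 1 - κ)) →
  ∃ δ : ℝ, 0 < δ ∧ ∃ N1 : ℕ, ∀ N : ℕ, N1 ≤ N → ∀ c : ℝ, 0 ≤ c → ∀ B : Set ℕ,
    (∀ y : ℕ, 2 ≤ y → y < N → c * (y / (Real.log y) ^ κ) ≤ (cnt B y : ℝ)) →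
    (1 + δ) * c * (N / (Real.log N) ^ κ) ≤
      ∑ a ∈ upto B (z2 N), (Nat.primeCounting (N / a) : ℝ) := by
  classical
  intro κ hκ0 hκ1 hI
  have hA1 := a1z
  have hA2 := Pool.Agent.Q150.MM.t_A2
  have hA3 := Pool.Agent.Q150.MM.t_A3
  have hA4 := Pool.Agent.Q26.MM.t_A4
  obtain ⟨I, hP⟩ := hI
  set P : ℝ := ∑ i ∈ range I, (1 / 2 : ℝ) ^ ((i : ℝ) + 1 - κ) / ((i : ℝ) + 1 - κ) with hPdef
  obtain ⟨ε, hε⟩ : ∃ ε : ℝ, ε = (P - 1) / (4 * P) := ⟨_, rfl⟩
  have hP0 : 0 < P := by linarith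
  have hε0 : 0 < ε := by
    rw [hε]
    apply div_pos <;> linarith
  have hεP : ε * P = (P - 1) / 4 := by
    rw [hε]
    field_simp
  have hε1 : ε < 1 / 4 := by
    rw [hε, div_lt_iff₀ (by linarith)]
    linarith
  have h3 : 1 < (1 - ε) ^ 3 * P := by
    have h1 : 1 - 3 * ε ≤ (1 - ε) ^ 3 := by nlinarith [sq_nonneg ε, pow_pos hε0 3]
    have h2 : (1 - 3 * ε) * P ≤ (1 - ε) ^ 3 * P := mul_le_mul_of_nonneg_right h1 hP0.le
    nlinarith
  obtain ⟨y1, hy3, hA2'⟩ := hA2 κ hκ0 hκ1 ε hε0 (by linarith)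
  obtain ⟨N1, hA1'⟩ := hA1 κ hκ0 hκ1 I y1 ε hε0 (by linarith)
  obtain ⟨N3, hA3'⟩ := hA3 ε hε0
  refine ⟨(1 - ε) ^ 3 * P - 1, by linarith, max (max N1 N3) (max (17 ^ 16) (y1 ^ 4)), ?_⟩
  intro N hN c hc B hB
  have hN1 : N1 ≤ N := (le_max_left _ _).trans ((le_max_left _ _).trans hN)
  have hN3 : N3 ≤ N := (le_max_right _ _).trans ((le_max_left _ _).trans hN)
  have hN8 : 17 ^ 16 ≤ N := (le_max_left _ _).trans ((le_max_right _ _).trans hN)
  have hNy : y1 ^ 4 ≤ N := (le_max_right _ _).trans ((le_max_right _ _).trans hN)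
  have hNt : 3 ≤ N := by omega
  have hN0 : (0 : ℝ) < N := by
    have : 0 < N := by omega
    exact_mod_cast this
  have hlogN := log_gt_one hNt
  have hy1z : y1 ≤ z2 N := le_z2 hN8 hNy
  have hzN : z2 N < N := (z2_le_zz hNt).trans_lt (Pool.Agent.Q211.MM.zz_lt hNt)
  set f : ℕ → ℝ := fun a => (Nat.primeCounting (N / a) : ℝ) with hf
  set g : ℕ → ℝ := fun y => c * (y / (Real.log y) ^ κ) with hg
  have hlogpos : ∀ y : ℕ, 3 ≤ y → 0 < (Real.log y) ^ κ := fun y hy =>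
    Real.rpow_pos_of_pos (lt_trans one_pos (log_gt_one hy)) κ
  have h4 := hA4 B f g y1 (z2 N) (by omega) hy1z
    (fun y hy1 hy2 => hB y (by omega) (by omega))
    (fun y hy1 hy2 => by
      simp only [hf]
      have : N / (y + 1) ≤ N / y := Nat.div_le_div_left (by omega) (by omega)
      exact_mod_cast Nat.monotone_primeCounting this)
    (Nat.cast_nonneg _)
    (by
      simp only [hg]
      have := hlogpos y1 hy3
      positivity)
  refine le_trans ?_ h4
  have hterm : ∀ y ∈ Ioc y1 (z2 N), c * (1 - ε) ^ 2 * N *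
      (1 / ((y : ℝ) * (Real.log y) ^ κ * Real.log ((N : ℝ) / y))) ≤ (g y - g (y - 1)) * f y := by
    intro y hy
    rw [Finset.mem_Ioc] at hy
    have hy3' : 3 ≤ y := by omega
    have hy0 : (0 : ℝ) < y := by
      have : 0 < y := by omega
      exact_mod_cast this
    have hyl := hlogpos y hy3'
    have hlogNy : 0 < Real.log ((N : ℝ) / y) := by
      apply Real.log_pos
      rw [lt_div_iff₀ hy0, one_mul]
      have : y < N := by omega
      exact_mod_cast this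
    have e1 : c * ((1 - ε) / (Real.log y) ^ κ) ≤ g y - g (y - 1) := by
      have h5 := mul_le_mul_of_nonneg_left (hA2' y (by omega)) hc
      have h6 : ((y - 1 : ℕ) : ℝ) = (y : ℝ) - 1 := by
        rw [Nat.cast_sub (by omega)]
        norm_num
      simp only [hg]
      rw [h6, ← mul_sub]
      exact h5
    have e2 := hA3' N hN3 y (by omega) (hy.2.trans (z2_le_zz hNt))
    have e3 : 0 ≤ c * ((1 - ε) / (Real.log y) ^ κ) :=
      mul_nonneg hc (div_nonneg (by linarith) hyl.le)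
    have e4 : 0 ≤ (1 - ε) * ((N : ℝ) / y) / Real.log ((N : ℝ) / y) :=
      div_nonneg (mul_nonneg (by linarith) (by positivity)) hlogNy.le
    have e5 := mul_le_mul e1 e2 e4 (e3.trans e1)
    refine le_trans (le_of_eq ?_) e5
    field_simp
  have hsum := Finset.sum_le_sum hterm
  refine le_trans ?_ hsum
  rw [← Finset.mul_sum]
  have h6 := hA1' N hN1
  have h7 : c * (1 - ε) ^ 2 * N * ((1 - ε) * P / (Real.log N) ^ κ) ≤ c * (1 - ε) ^ 2 * N *
      ∑ y ∈ Ioc y1 (z2 N), 1 / ((y : ℝ) * (Real.log y) ^ κ * Real.log ((N : ℝ) / y)) :=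
    mul_le_mul_of_nonneg_left h6 (by positivity)
  refine le_trans (le_of_eq ?_) h7
  ring


theorem a6z (κ : ℝ) (hκ0 : 0 < κ) (hκ1 : κ < 1)
    (hI : ∃ I : ℕ, 1 < ∑ i ∈ range I, (1 / 2 : ℝ) ^ ((i : ℝ) + 1 - κ) / ((i : ℝ) + 1 - κ))
    (B : Set ℕ) (D : ℝ) (hD : 0 < D)
    (hB1 : ∃ c0 : ℝ, 0 < c0 ∧ ∀ N : ℕ, 2 ≤ N → c0 * (N / Real.log N) ≤ (cnt B N : ℝ))
    (hB2 : ∀ N : ℕ, 3 ≤ N → ∑ a ∈ upto B (z2 N), (Nat.primeCounting (N / a) : ℝ) ≤
      cnt B N + D * (N / Real.log N ^ 2)) :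
    ∃ c : ℝ, 0 < c ∧ ∀ N : ℕ, 2 ≤ N → c * (N / (Real.log N) ^ κ) ≤ (cnt B N : ℝ) := by
  classical
  obtain ⟨c0, hc0, hch⟩ := hB1
  obtain ⟨δ, hδ, N1, hA⟩ := a5z κ hκ0 hκ1 hI
  obtain ⟨N2, hN2⟩ := exists_nat_ge (Real.exp (D / (c0 * δ)))
  set N0 : ℕ := max (max N1 3) N2 with hN0
  have hN0a : N1 ≤ N0 := (le_max_left _ _).trans (le_max_left _ _)
  have hN0b : 3 ≤ N0 := (le_max_right _ _).trans (le_max_left _ _)
  have hN0c : N2 ≤ N0 := le_max_right _ _
  have hl0 : 1 < Real.log N0 := log_gt_one hN0b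
  have hlog0 : D ≤ c0 * δ * Real.log N0 := by
    have h1 : Real.exp (D / (c0 * δ)) ≤ N0 := hN2.trans (by exact_mod_cast hN0c)
    have h2 : D / (c0 * δ) ≤ Real.log N0 := by
      rw [Real.le_log_iff_exp_le (by linarith [Real.exp_pos (D / (c0 * δ))])]
      exact h1
    rw [div_le_iff₀ (by positivity)] at h2
    linarith
  have hl00 : 0 < Real.log N0 := by linarith
  have hc : 0 < c0 * (Real.log N0) ^ (κ - 1) := by positivity
  refine ⟨c0 * (Real.log N0) ^ (κ - 1), hc, fun N => ?_⟩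
  induction N using Nat.strong_induction_on with
  | _ N ih =>
    intro hN
    have hNr : (2 : ℝ) ≤ N := by exact_mod_cast hN
    have hlN : 0 < Real.log N := Real.log_pos (by linarith)
    by_cases hcase : N ≤ N0
    · refine le_trans ?_ (hch N hN)
      have h2 : Real.log N ≤ Real.log N0 := Real.log_le_log (by linarith) (by exact_mod_cast hcase)
      have h3 : (Real.log N0) ^ (κ - 1) ≤ (Real.log N) ^ (κ - 1) :=
        Real.rpow_le_rpow_of_nonpos hlN h2 (by linarith)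
      have h4 : (Real.log N) ^ κ = (Real.log N) ^ (κ - 1) * Real.log N := by
        rw [← Real.rpow_add_one hlN.ne']
        congr 1
        ring
      have h5 : 0 < (Real.log N) ^ (κ - 1) := by positivity
      rw [h4, mul_assoc]
      apply mul_le_mul_of_nonneg_left _ hc0.le
      calc (Real.log N0) ^ (κ - 1) * (N / ((Real.log N) ^ (κ - 1) * Real.log N)) ≤
            (Real.log N) ^ (κ - 1) * (N / ((Real.log N) ^ (κ - 1) * Real.log N)) :=
            mul_le_mul_of_nonneg_right h3 (by positivity)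
        _ = N / Real.log N := by field_simp
    · push Not at hcase
      have h1 := hA N (by omega) _ hc.le B (fun y hy1 hy2 => ih y hy2 hy1)
      have h2 := hB2 N (by omega)
      have h4 : D * ((N : ℝ) / Real.log N ^ 2) ≤
          δ * (c0 * (Real.log N0) ^ (κ - 1)) * (N / (Real.log N) ^ κ) := by
        have e1 : (Real.log N) ^ κ = (Real.log N) ^ (κ - 2) * Real.log N ^ 2 := by
          rw [← Real.rpow_natCast, ← Real.rpow_add hlN]
          congr 1
          push_cast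
          ring
        have e2 : (Real.log N0) ^ (κ - 1) = (Real.log N0) ^ (κ - 2) * Real.log N0 := by
          rw [← Real.rpow_add_one hl00.ne']
          congr 1
          ring
        have e3 : (Real.log N) ^ (κ - 2) ≤ (Real.log N0) ^ (κ - 2) := by
          apply Real.rpow_le_rpow_of_nonpos hl00 _ (by linarith)
          have hN0r : (3 : ℝ) ≤ N0 := by exact_mod_cast hN0b
          apply Real.log_le_log (by linarith)
          exact_mod_cast hcase.le
        have e4 : 0 < (Real.log N) ^ (κ - 2) := by positivity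
        have e5 : D * (Real.log N) ^ (κ - 2) ≤ δ * (c0 * (Real.log N0) ^ (κ - 1)) := by
          calc D * (Real.log N) ^ (κ - 2) ≤ D * (Real.log N0) ^ (κ - 2) :=
              mul_le_mul_of_nonneg_left e3 hD.le
            _ ≤ (c0 * δ * Real.log N0) * (Real.log N0) ^ (κ - 2) :=
              mul_le_mul_of_nonneg_right hlog0 (by positivity)
            _ = δ * (c0 * (Real.log N0) ^ (κ - 1)) := by
              rw [e2]
              ring
        calc D * ((N : ℝ) / Real.log N ^ 2) =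
            D * (Real.log N) ^ (κ - 2) * (N / (Real.log N) ^ κ) := by
              rw [e1]
              field_simp
          _ ≤ _ := mul_le_mul_of_nonneg_right e5 (by positivity)
      have h5 : (1 + δ) * (c0 * (Real.log N0) ^ (κ - 1)) * (N / (Real.log N) ^ κ) =
          c0 * (Real.log N0) ^ (κ - 1) * (N / (Real.log N) ^ κ) +
            δ * (c0 * (Real.log N0) ^ (κ - 1)) * (N / (Real.log N) ^ κ) := by ring
      rw [h5] at h1
      linarith


theorem a8z (κ : ℝ) (k0 : 0 < κ) (k1 : κ < 1)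
    (hI : ∃ I : ℕ, 1 < ∑ i ∈ range I, (1 / 2 : ℝ) ^ ((i : ℝ) + 1 - κ) / ((i : ℝ) + 1 - κ))
    (B B' : Set ℕ) (D : ℝ) (hD : 0 < D)
    (hB1 : ∃ c : ℝ, 0 < c ∧ ∀ N : ℕ, 2 ≤ N → c * (N / (Real.log N) ^ κ) ≤ (cnt B N : ℝ))
    (hB : ∀ N : ℕ, 3 ≤ N → ∑ a ∈ upto B (z2 N), (Nat.primeCounting (N / a) : ℝ) ≤
      cnt B' N + Nat.primeCounting N + D * (N / Real.log N ^ 2)) :
    ∃ c : ℝ, 0 < c ∧ ∃ N0 : ℕ, ∀ N : ℕ, N0 ≤ N → c * (N / (Real.log N) ^ κ) ≤ (cnt B' N : ℝ) := by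
  obtain ⟨c1, C, c1p, Cp, CH⟩ := cheb
  obtain ⟨δ, δ0, N1, H⟩ := a5z κ k0 k1 hI
  obtain ⟨c, cp, hc⟩ := hB1
  have T : Tendsto (fun N : ℕ => (Real.log (N : ℝ)) ^ (1 - κ)) atTop atTop :=
    (tendsto_rpow_atTop (by linarith : 0 < 1 - κ)).comp
      (Real.tendsto_log_atTop.comp tendsto_natCast_atTop_atTop)
  obtain ⟨N2, hN2⟩ := eventually_atTop.mp (T.eventually_ge_atTop ((C + D) / c))
  refine ⟨δ * c, by positivity, max N1 (max 3 N2), fun N hN => ?_⟩
  have a1 : N1 ≤ N := (le_max_left _ _).trans hN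
  have a3 : 3 ≤ N := ((le_max_left _ _).trans (le_max_right _ _)).trans hN
  have a2 : N2 ≤ N := ((le_max_right _ _).trans (le_max_right _ _)).trans hN
  have N3 : (3 : ℝ) ≤ N := by exact_mod_cast a3
  have Np : (0 : ℝ) < N := by linarith
  have L1 : 1 ≤ Real.log N := by
    rw [Real.le_log_iff_exp_le Np]
    have := Real.exp_one_lt_d9
    linarith
  have Lp : 0 < Real.log N := by linarith
  have h1 := H N a1 c cp.le B (fun y hy _ => hc y hy)
  have h2 := hB N a3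
  have h3 := (CH N (by omega)).2
  have h4 : D * ((N : ℝ) / Real.log N ^ 2) ≤ D * (N / Real.log N) := by
    refine mul_le_mul_of_nonneg_left ?_ hD.le
    refine div_le_div_of_nonneg_left Np.le Lp ?_
    have := mul_le_mul_of_nonneg_right L1 Lp.le
    rw [one_mul] at this
    rw [sq]
    exact this
  have h5 : (C + D) * (N / Real.log N) ≤ c * (N / (Real.log N) ^ κ) := by
    have g1 : (C + D) / c ≤ (Real.log N) ^ (1 - κ) := hN2 N a2
    have e : (Real.log N) ^ (1 - κ) * (Real.log N) ^ κ = Real.log N := by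
      rw [← Real.rpow_add Lp]
      simp
    rw [div_le_iff₀ cp] at g1
    have g2 := mul_le_mul_of_nonneg_right g1 (by positivity : 0 ≤ (N : ℝ) / Real.log N)
    have kp : 0 < (Real.log N) ^ κ := Real.rpow_pos_of_pos Lp _
    have g3 : (Real.log N) ^ (1 - κ) * c * ((N : ℝ) / Real.log N) = c * (N / (Real.log N) ^ κ) := by
      rw [mul_div_assoc', mul_div_assoc', div_eq_div_iff Lp.ne' kp.ne']
      linear_combination (c * N) * e
    rw [g3] at g2
    exact g2
  have h6 : (1 + δ) * c * (N / (Real.log N) ^ κ) = δ * c * (N / (Real.log N) ^ κ) +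
    c * (N / (Real.log N) ^ κ) := by ring
  have h7 : (C + D) * (N / Real.log N) = C * (N / Real.log N) + D * (N / Real.log N) := by ring
  linarith


end Pool.Agent.Q147.MO
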