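import Pool.Agent.Q147.MO.Rough

/-!
# Almost all integers are products of rapidly increasing primes
-/

set_option autoImplicit false

namespace Pool.Agent.Q147.MO

open Finset Filter Topology
open Pool.Agent.Q147.MM
open Pool.Agent.Q211.MM (gpf gpf_spec div_mem_Sk le_pow_of_factors log_gt_one div_log_le
  card_primes exists_gpf)
open Pool.Agent.Q95.MM (cnt_le_self cnt_Sk_pos upto_mono)

open scoped Classical in
/-- the elements `n ≤ N` of `Sk k`, other than `1`, with `n / gpf n > z` -/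
noncomputable def BadZ (k N z : ℕ) : Finset ℕ :=
  (upto (Sk k) N).filter (fun n => n ≠ 1 ∧ z < n / gpf n)

theorem r1z (k M : ℕ) : ∃ C : ℝ, 0 < C ∧ ∀ N z : ℕ, 3 ≤ N → 1 ≤ z → N ≤ z ^ M →
    ((BadZ (k + 2) N z).card : ℝ) ≤ C * (N / Real.log N) * T k N := by
  classical
  obtain ⟨c0, C0, -, hC0, hch⟩ := cheb
  obtain ⟨C', hC', hd⟩ := d0 k M
  refine ⟨2 * C0 * (k + 2) * C', by positivity, fun N z hN3 hz1 hz4 => ?_⟩
  have hN0 : (0 : ℝ) < N := by
    have : 0 < N := by omega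
    exact_mod_cast this
  have hlogN := log_gt_one hN3
  -- the members of the bad set
  set S := BadZ (k + 2) N z with hS
  have hmemS : ∀ n ∈ S, 2 ≤ n ∧ n ≤ N ∧ n ∈ Sk (k + 2) ∧
      z < n / gpf n := by
    intro n hn
    rw [hS, BadZ, Finset.mem_filter, mem_upto] at hn
    have h1 := hn.2.1
    have h2 := hn.1.1.1
    exact ⟨by omega, hn.1.1.2, hn.1.2, hn.2.2⟩
  set M' := (upto (Sk (k + 1)) N).filter
    (fun m => z < m ∧ m ^ (k + 2) ≤ N ^ (k + 1) ∧ 2 ≤ N / m) with hM'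
  have hmaps : ∀ n ∈ S, n / gpf n ∈ M' := by
    intro n hn
    obtain ⟨h1, h2, h3, h4⟩ := hmemS n hn
    obtain ⟨g1, g2, g3⟩ := gpf_spec h1
    have hmul : gpf n * (n / gpf n) = n := Nat.mul_div_cancel' g2
    have hpos : 1 ≤ n / gpf n := Nat.div_pos (Nat.le_of_dvd (by omega) g2) g1.pos
    have hSk : n / gpf n ∈ Sk (k + 1) := div_mem_Sk h3 g1 g2
    rw [hM', Finset.mem_filter]
    refine ⟨mem_upto.2 ⟨⟨hpos, (Nat.div_le_self _ _).trans h2⟩, hSk⟩, h4, ?_, ?_⟩
    · have h5 : n / gpf n ≤ gpf n ^ (k + 1) := by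
        refine le_pow_of_factors (by omega) g1.one_lt.le hSk.2 fun q hq hqn => g3 q hq ?_
        exact hqn.trans (Nat.div_dvd_of_dvd g2)
      calc (n / gpf n) ^ (k + 2) = (n / gpf n) ^ (k + 1) * (n / gpf n) := pow_succ _ _
        _ ≤ (n / gpf n) ^ (k + 1) * gpf n ^ (k + 1) := Nat.mul_le_mul_left _ h5
        _ = (gpf n * (n / gpf n)) ^ (k + 1) := by rw [mul_pow, mul_comm]
        _ = n ^ (k + 1) := by rw [hmul]
        _ ≤ N ^ (k + 1) := Nat.pow_le_pow_left h2 _
    · rw [Nat.le_div_iff_mul_le (by omega)]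
      calc 2 * (n / gpf n) ≤ gpf n * (n / gpf n) := Nat.mul_le_mul_right _ g1.two_le
        _ = n := hmul
        _ ≤ N := h2
  have hcard := Finset.card_eq_sum_card_fiberwise hmaps
  have hfib : ∀ m ∈ M', (S.filter (fun n => n / gpf n = m)).card ≤ Nat.primeCounting (N / m) := by
    intro m hm
    rw [hM', Finset.mem_filter, mem_upto] at hm
    rw [← card_primes]
    refine Finset.card_le_card_of_injOn gpf ?_ ?_
    · intro n hn
      rw [Finset.mem_coe, Finset.mem_filter] at hn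
      obtain ⟨h1, h2, h3, h4⟩ := hmemS n hn.1
      obtain ⟨g1, g2, g3⟩ := gpf_spec h1
      have hmul : gpf n * (n / gpf n) = n := Nat.mul_div_cancel' g2
      rw [hn.2] at hmul
      rw [Finset.mem_coe, Finset.mem_filter, Finset.mem_Icc]
      refine ⟨⟨g1.one_lt.le, ?_⟩, g1⟩
      rw [Nat.le_div_iff_mul_le (by omega)]
      omega
    · intro n hn n' hn' h
      rw [Finset.mem_coe, Finset.mem_filter] at hn hn'
      have e1 : gpf n * (n / gpf n) = n :=
        Nat.mul_div_cancel' (gpf_spec (hmemS n hn.1).1).2.1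
      have e2 : gpf n' * (n' / gpf n') = n' :=
        Nat.mul_div_cancel' (gpf_spec (hmemS n' hn'.1).1).2.1
      rw [hn.2] at e1
      rw [hn'.2] at e2
      rw [← e1, ← e2, h]
  have hterm : ∀ m ∈ M', (Nat.primeCounting (N / m) : ℝ) ≤
      2 * C0 * (k + 2) * (N / Real.log N) * (1 / (m : ℝ)) := by
    intro m hm
    rw [hM', Finset.mem_filter, mem_upto] at hm
    obtain ⟨⟨⟨h1, h2⟩, h3⟩, h4, h5, h6⟩ := hm
    have hm0 : (0 : ℝ) < m := by exact_mod_cast h1
    have h7 := (hch (N / m) h6).2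
    have hdm := Nat.div_add_mod N m
    have hmod := Nat.mod_lt N (show 0 < m by omega)
    have hf1 : ((N / m : ℕ) : ℝ) ≤ (N : ℝ) / m := Nat.cast_div_le
    have hf2 : (N : ℝ) / m < ((N / m : ℕ) : ℝ) + 1 := by
      rw [div_lt_iff₀ hm0]
      have : N < (N / m + 1) * m := by
        calc N = m * (N / m) + N % m := hdm.symm
          _ < m * (N / m) + m := by omega
          _ = (N / m + 1) * m := by ring
      exact_mod_cast this
    have h8 := div_log_le h6 hf1 hf2
    have hlog : Real.log N / (k + 2) ≤ Real.log ((N : ℝ) / m) := by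
      have h9 : (m : ℝ) ^ (k + 2) ≤ (N : ℝ) ^ (k + 1) := by exact_mod_cast h5
      have h10 := Real.log_le_log (by positivity) h9
      rw [Real.log_pow, Real.log_pow] at h10
      push_cast at h10
      rw [Real.log_div hN0.ne' hm0.ne', div_le_iff₀ (by positivity)]
      linarith
    have hk2 : 0 < Real.log N / ((k : ℝ) + 2) := by positivity
    have h11 : (N : ℝ) / m / Real.log ((N : ℝ) / m) ≤ (N : ℝ) / m / (Real.log N / (k + 2)) :=
      div_le_div_of_nonneg_left (by positivity) hk2 hlog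
    calc (Nat.primeCounting (N / m) : ℝ) ≤ C0 * (((N / m : ℕ) : ℝ) / Real.log ((N / m : ℕ) : ℝ)) := h7
      _ ≤ C0 * (2 * ((N : ℝ) / m / Real.log ((N : ℝ) / m))) := mul_le_mul_of_nonneg_left h8 hC0.le
      _ ≤ C0 * (2 * ((N : ℝ) / m / (Real.log N / (k + 2)))) := by
        apply mul_le_mul_of_nonneg_left _ hC0.le
        linarith
      _ = _ := by
        field_simp
  have h1 : (S.card : ℝ) ≤ ∑ m ∈ M', 2 * C0 * (k + 2) * (N / Real.log N) * (1 / (m : ℝ)) := by
    rw [hcard]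
    push_cast
    refine Finset.sum_le_sum fun m hm => ?_
    refine le_trans ?_ (hterm m hm)
    exact_mod_cast hfib m hm
  have h2 : ∑ m ∈ M', (1 : ℝ) / m ≤ C' * T k N := by
    refine le_trans ?_ (hd z N hz1 hz4)
    refine Finset.sum_le_sum_of_subset_of_nonneg ?_ fun _ _ _ => by positivity
    intro m hm
    rw [hM', Finset.mem_filter] at hm
    rw [Finset.mem_filter]
    exact ⟨hm.1, hm.2.1⟩
  rw [← Finset.mul_sum] at h1
  refine h1.trans ?_
  calc 2 * C0 * (k + 2) * (N / Real.log N) * ∑ m ∈ M', (1 : ℝ) / m ≤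
      2 * C0 * (k + 2) * (N / Real.log N) * (C' * T k N) :=
        mul_le_mul_of_nonneg_left h2 (by positivity)
    _ = _ := by ring


/-- numbers with a cofactor in a given set -/
theorem card_pairs (M : Set ℕ) (z N : ℕ) (s : Finset ℕ)
    (h : ∀ n ∈ s, ∃ a q, n = a * q ∧ a ∈ M ∧ 1 ≤ a ∧ a ≤ z ∧ q.Prime ∧ n ≤ N) :
    s.card ≤ ∑ a ∈ upto M z, Nat.primeCounting (N / a) := by
  classical
  have h1 : s ⊆ ((upto M z).sigma fun a => (Icc 1 (N / a)).filter Nat.Prime).image
      (fun p => p.1 * p.2) := by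
    intro n hn
    obtain ⟨a, q, rfl, haM, ha1, haz, hq, hnN⟩ := h n hn
    rw [Finset.mem_image]
    refine ⟨⟨a, q⟩, ?_, rfl⟩
    rw [Finset.mem_sigma, Finset.mem_filter, Finset.mem_Icc, mem_upto]
    refine ⟨⟨⟨ha1, haz⟩, haM⟩, ⟨hq.one_lt.le, ?_⟩, hq⟩
    show q ≤ N / a
    rw [Nat.le_div_iff_mul_le (by omega)]
    rwa [Nat.mul_comm]
  refine (Finset.card_le_card h1).trans (Finset.card_image_le.trans ?_)
  rw [Finset.card_sigma]
  refine Finset.sum_le_sum fun a _ => ?_
  rw [card_primes]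

/-- **Abel summation.** -/
theorem absum (k : ℕ) (hk : 1 ≤ k) (M : Set ℕ)
    (hM : Tendsto (fun N : ℕ => (cnt M N : ℝ) / cnt (Sk k) N) atTop (𝓝 0)) (z : ℕ → ℕ) :
    Tendsto (fun N : ℕ => (∑ a ∈ upto M (z N), (Nat.primeCounting (N / a) : ℝ)) /
      cnt (Sk (k + 1)) N) atTop (𝓝 0) := by
  rw [tendsto_order]
  constructor
  · intro a ha
    refine Eventually.of_forall fun N => lt_of_lt_of_le ha ?_
    exact div_nonneg (Finset.sum_nonneg fun _ _ => Nat.cast_nonneg _) (Nat.cast_nonneg _)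
  intro ε hε
  set η : ℝ := ε / (2 * (k + 1)) with hη
  have hη0 : 0 < η := by positivity
  obtain ⟨Y, hY⟩ : ∃ Y : ℕ, ∀ y : ℕ, 1 ≤ y → (cnt M y : ℝ) ≤ η * cnt (Sk k) y + Y := by
    obtain ⟨Y, hY⟩ := eventually_atTop.1 ((tendsto_order.1 hM).2 η hη0)
    refine ⟨Y, fun y hy => ?_⟩
    have hpos : (0 : ℝ) < cnt (Sk k) y := by exact_mod_cast cnt_Sk_pos k y hy
    rcases le_total Y y with h | h
    · have h2 := hY y h
      rw [div_lt_iff₀ hpos] at h2
      have h3 : (0 : ℝ) ≤ Y := Nat.cast_nonneg _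
      linarith
    · have h2 : (cnt M y : ℝ) ≤ y := by exact_mod_cast cnt_le_self _ _
      have h3 : (y : ℝ) ≤ Y := by exact_mod_cast h
      have h4 : 0 ≤ η * cnt (Sk k) y := by positivity
      linarith
  have h1 := (tendsto_order.1 ((b4.2.2 k hk).const_mul (Y : ℝ))).2 (ε / 2)
    (by rw [mul_zero]; positivity)
  filter_upwards [h1, eventually_ge_atTop 1] with N hN hN1
  have hpos : (0 : ℝ) < cnt (Sk (k + 1)) N := by exact_mod_cast cnt_Sk_pos (k + 1) N hN1
  have e1 := Pool.Agent.Q151.MM.t_B1 M (Sk k) (fun a => (Nat.primeCounting (N / a) : ℝ)) η Y (z N)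
    (Nat.cast_nonneg _) (Nat.cast_nonneg _) (fun y hy _ => hY y hy)
    (fun y hy _ => by
      exact_mod_cast Nat.monotone_primeCounting (Nat.div_le_div_left (Nat.le_succ y) hy))
    (Nat.cast_nonneg _)
  simp only [Nat.div_one] at e1
  have e2 : ∑ a ∈ upto (Sk k) (z N), (Nat.primeCounting (N / a) : ℝ) ≤
      (k + 1) * cnt (Sk (k + 1)) N := by
    exact_mod_cast Pool.Agent.Q151.MM.t_B2 k (z N) N
  have e3 := mul_le_mul_of_nonneg_left e2 hη0.le
  have e4 : η * ((k + 1) * cnt (Sk (k + 1)) N) = ε / 2 * cnt (Sk (k + 1)) N := by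
    rw [hη]
    have : (k : ℝ) + 1 ≠ 0 := by positivity
    field_simp
  rw [div_lt_iff₀ hpos]
  rw [← mul_div_assoc, div_lt_iff₀ hpos] at hN
  linarith

theorem badz_negl (k M : ℕ) (z : ℕ → ℕ) (hz : ∀ᶠ N : ℕ in atTop, 1 ≤ z N ∧ N ≤ z N ^ M) :
    Tendsto (fun N : ℕ => ((BadZ (k + 1) N (z N)).card : ℝ) / cnt (Sk (k + 1)) N) atTop (𝓝 0) := by
  classical
  rcases Nat.eq_zero_or_pos k with rfl | hk
  · refine (tendsto_congr' ?_).2 tendsto_const_nhds
    filter_upwards [hz] with N hN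
    have h1 : BadZ (0 + 1) N (z N) = ∅ := by
      rw [Finset.eq_empty_iff_forall_notMem]
      intro n hn
      rw [BadZ, Finset.mem_filter, mem_upto] at hn
      obtain ⟨⟨hn1, hn2⟩, hn3, hn4⟩ := hn
      have h2 : 2 ≤ n := by omega
      obtain ⟨g1, g2, g3⟩ := gpf_spec h2
      have h3 : n / gpf n ∈ Sk 0 := div_mem_Sk hn2 g1 g2
      have h4 : n / gpf n = 1 := by
        have h5 := h3.2
        have h6 : ArithmeticFunction.cardFactors (n / gpf n) = 0 := by omega
        rw [ArithmeticFunction.cardFactors_eq_zero_iff_eq_zero_or_one] at h6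
        exact h6.resolve_left h3.1
      have := hN.1
      omega
    rw [h1]
    simp
  · obtain ⟨j, rfl⟩ : ∃ l, k = l + 1 := ⟨k - 1, by omega⟩
    obtain ⟨c, hc, N1, h1⟩ := c1 (j + 1)
    obtain ⟨C, hC, h2⟩ := r1z j M
    have hlim : Tendsto (fun N : ℕ => C / c * (T j N / T (j + 1) N)) atTop (𝓝 0) := by
      have := (d3 j).const_mul (C / c)
      simpa using this
    refine squeeze_zero' (Eventually.of_forall fun N => by positivity) ?_ hlim
    filter_upwards [eventually_ge_atTop 3, hz, eventually_ge_atTop N1] with N hN hN2 hN1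
    have hl : 0 < Real.log (N : ℝ) := Real.log_pos (by exact_mod_cast (by omega : 1 < N))
    have hNpos : (0 : ℝ) < N := by exact_mod_cast (by omega : 0 < N)
    have hT : 1 ≤ T (j + 1) N := Pool.Agent.Q24.MM.one_le_T (by omega)
    have hT0 : 1 ≤ T j N := Pool.Agent.Q24.MM.one_le_T (by omega)
    have e1 := h1 N hN1
    have e2 := h2 N (z N) hN hN2.1 hN2.2
    calc ((BadZ (j + 1 + 1) N (z N)).card : ℝ) / (cnt (Sk (j + 1 + 1)) N : ℝ)
        ≤ (C * (N / Real.log N) * T j N) / (c * (N / Real.log N) * T (j + 1) N) := by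
          have : 0 < T (j + 1) N := by linarith
          have : 0 < T j N := by linarith
          gcongr
      _ = C / c * (T j N / T (j + 1) N) := by
          have : T (j + 1) N ≠ 0 := by linarith
          field_simp

/-- the integers outside -/
theorem count_notLac (C : ℕ → ℕ → Prop) (X : Set ℕ) (k N z e : ℕ)
    (he : ∀ a q : ℕ, 1 ≤ a → a ≤ z → q.Prime → a * q ≤ N → ¬ C a q → a * q ≤ e) :
    cnt (Sk (k + 1) \ {n | Lac C X n}) N ≤
      1 + ∑ a ∈ upto (Sk k \ {n | Lac C X n}) z, Nat.primeCounting (N / a) +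
        (BadZ (k + 1) N z).card + e + cnt X N := by
  classical
  set LS : Set ℕ := {n | Lac C X n} with hLS
  let s1 : Finset ℕ := (upto (Sk (k + 1) \ LS) N).filter
    (fun n => n ≠ 1 ∧ n / gpf n ≤ z ∧ n / gpf n ∉ LS)
  have h1 : s1.card ≤ ∑ a ∈ upto (Sk k \ LS) z, Nat.primeCounting (N / a) := by
    refine card_pairs _ _ _ _ fun n hn => ?_
    rw [Finset.mem_filter, mem_upto] at hn
    obtain ⟨⟨⟨hn1, hnN⟩, hn2⟩, hn3, hn4, hn5⟩ := hn
    obtain ⟨g1, g2, g3⟩ := gpf_spec (n := n) (by omega)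
    have hmul : n / gpf n * gpf n = n := Nat.div_mul_cancel g2
    refine ⟨n / gpf n, gpf n, hmul.symm, ⟨div_mem_Sk hn2.1 g1 g2, hn5⟩, ?_, hn4, g1, hnN⟩
    exact Nat.div_pos (Nat.le_of_dvd (by omega) g2) g1.pos
  have h2 : upto (Sk (k + 1) \ LS) N ⊆
      {1} ∪ s1 ∪ BadZ (k + 1) N z ∪ Icc 1 e ∪ upto X N := by
    intro n hn
    have hn' := hn
    rw [mem_upto] at hn
    obtain ⟨⟨hn1, hnN⟩, hn2⟩ := hn
    rw [Finset.mem_union, Finset.mem_union, Finset.mem_union, Finset.mem_union,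
      Finset.mem_singleton, mem_upto]
    by_cases h3 : n = 1
    · exact Or.inl (Or.inl (Or.inl (Or.inl h3)))
    obtain ⟨g1, g2, g3⟩ := gpf_spec (n := n) (by omega)
    have hmul : n / gpf n * gpf n = n := Nat.div_mul_cancel g2
    have hpos : 1 ≤ n / gpf n := Nat.div_pos (Nat.le_of_dvd (by omega) g2) g1.pos
    by_cases h4 : z < n / gpf n
    · refine Or.inl (Or.inl (Or.inr ?_))
      rw [BadZ, Finset.mem_filter, mem_upto]
      exact ⟨⟨⟨hn1, hnN⟩, hn2.1⟩, h3, h4⟩
    by_cases h5 : n / gpf n ∈ LS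
    · by_cases h6 : C (n / gpf n) (gpf n)
      · by_cases h7 : n ∈ X
        · exact Or.inr ⟨⟨hn1, hnN⟩, h7⟩
        · refine absurd ?_ hn2.2
          have h8 : Lac C X (n / gpf n * gpf n) :=
            Lac.mul (n / gpf n) (gpf n) h5 g1 h6 (by rw [hmul]; exact h7)
          rw [hmul] at h8
          exact h8
      · refine Or.inl (Or.inr ?_)
        rw [Finset.mem_Icc]
        have h7 := he (n / gpf n) (gpf n) hpos (by omega) g1 (by rw [hmul]; exact hnN) h6
        rw [hmul] at h7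
        exact ⟨hn1, h7⟩
    · refine Or.inl (Or.inl (Or.inl (Or.inr ?_)))
      rw [Finset.mem_filter]
      exact ⟨hn', h3, by omega, h5⟩
  have h3 := Finset.card_le_card h2
  have h8 := Finset.card_union_le ({1} ∪ s1 ∪ BadZ (k + 1) N z ∪ Icc 1 e) (upto X N)
  have h4 := Finset.card_union_le ({1} ∪ s1 ∪ BadZ (k + 1) N z) (Icc 1 e)
  have h5 := Finset.card_union_le ({1} ∪ s1) (BadZ (k + 1) N z)
  have h6 := Finset.card_union_le {1} s1
  rw [Finset.card_singleton] at h6
  have h7 : (Icc 1 e).card = e := by simp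
  unfold cnt
  omega

theorem negl_const (k : ℕ) (a : ℝ) :
    Tendsto (fun N : ℕ => a / (cnt (Sk (k + 1)) N : ℝ)) atTop (𝓝 0) := by
  refine Tendsto.div_atTop tendsto_const_nhds ?_
  refine tendsto_natCast_atTop_atTop.comp ?_
  exact tendsto_atTop_mono (fun N => Pool.Agent.Q24.MM.primeCounting_le_cnt k N)
    Nat.tendsto_primeCounting

/-- **Almost all integers with at most `k` prime factors are products of rapidly increasing primes
without initial products in a thin set.** -/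
theorem lac_dense (C : ℕ → ℕ → Prop) (X : Set ℕ) (M : ℕ) (z e : ℕ → ℕ)
    (hz : ∀ᶠ N : ℕ in atTop, 1 ≤ z N ∧ N ≤ z N ^ M)
    (he : ∀ N a q : ℕ, 1 ≤ a → a ≤ z N → q.Prime → a * q ≤ N → ¬ C a q → a * q ≤ e N)
    (he0 : ∀ k, Tendsto (fun N : ℕ => (e N : ℝ) / cnt (Sk (k + 1)) N) atTop (𝓝 0))
    (hX : ∀ k, Tendsto (fun N : ℕ => (cnt X N : ℝ) / cnt (Sk (k + 1)) N) atTop (𝓝 0))
    (k : ℕ) (hk : 1 ≤ k) :
    Tendsto (fun N : ℕ => (cnt (Sk k \ {n | Lac C X n}) N : ℝ) / cnt (Sk k) N) atTop (𝓝 0) := by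
  have step : ∀ k : ℕ, Tendsto (fun N : ℕ =>
      (∑ a ∈ upto (Sk k \ {n | Lac C X n}) (z N), (Nat.primeCounting (N / a) : ℝ)) /
        cnt (Sk (k + 1)) N) atTop (𝓝 0) →
      Tendsto (fun N : ℕ => (cnt (Sk (k + 1) \ {n | Lac C X n}) N : ℝ) / cnt (Sk (k + 1)) N)
        atTop (𝓝 0) := by
    intro k h
    have h1 := ((((negl_const k 1).add h).add (badz_negl k M z hz)).add (he0 k)).add (hX k)
    simp only [add_zero] at h1
    refine squeeze_zero (fun N => by positivity) (fun N => ?_) h1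
    rw [← add_div, ← add_div, ← add_div, ← add_div]
    refine div_le_div_of_nonneg_right ?_ (Nat.cast_nonneg _)
    exact_mod_cast count_notLac C X k N (z N) (e N) (he N)
  induction k, hk using Nat.le_induction with
  | base =>
    refine step 0 ?_
    have h0 : ∀ N, upto (Sk 0 \ {n | Lac C X n}) (z N) = ∅ := by
      intro N
      rw [Finset.eq_empty_iff_forall_notMem]
      intro n hn
      rw [mem_upto] at hn
      obtain ⟨-, hn1, hn2⟩ := hn
      have h5 := hn1.2
      have h6 : ArithmeticFunction.cardFactors n = 0 := by omega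
      rw [ArithmeticFunction.cardFactors_eq_zero_iff_eq_zero_or_one] at h6
      have h7 := h6.resolve_left hn1.1
      rw [h7] at hn2
      exact hn2 Lac.one
    simp only [h0, Finset.sum_empty, zero_div]
    exact tendsto_const_nhds
  | succ k hk ih => exact step k (absum k hk _ ih z)

/-- the same for the products of at least two primes -/
theorem lac_dense2 (C : ℕ → ℕ → Prop) (X : Set ℕ) (M : ℕ) (z e : ℕ → ℕ)
    (hz : ∀ᶠ N : ℕ in atTop, 1 ≤ z N ∧ N ≤ z N ^ M)
    (he : ∀ N a q : ℕ, 1 ≤ a → a ≤ z N → q.Prime → a * q ≤ N → ¬ C a q → a * q ≤ e N)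
    (he0 : ∀ k, Tendsto (fun N : ℕ => (e N : ℝ) / cnt (Sk (k + 1)) N) atTop (𝓝 0))
    (hX : ∀ k, Tendsto (fun N : ℕ => (cnt X N : ℝ) / cnt (Sk (k + 1)) N) atTop (𝓝 0))
    (k : ℕ) :
    Tendsto (fun N : ℕ =>
      (cnt (Sk (k + 2) \ {n | Lac C X n ∧ 2 ≤ ArithmeticFunction.cardFactors n}) N : ℝ) /
        cnt (Sk (k + 2)) N) atTop (𝓝 0) := by
  classical
  have h1 := ((lac_dense C X M z e hz he he0 hX (k + 2) (by omega)).add
    (b4.2.2 (k + 1) (Nat.succ_pos k))).add (negl_const (k + 1) 1)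
  simp only [add_zero] at h1
  refine squeeze_zero (fun N => by positivity) (fun N => ?_) h1
  rw [← add_div, ← add_div]
  refine div_le_div_of_nonneg_right ?_ (Nat.cast_nonneg _)
  have h2 : upto (Sk (k + 2) \ {n | Lac C X n ∧ 2 ≤ ArithmeticFunction.cardFactors n}) N ⊆
      upto (Sk (k + 2) \ {n | Lac C X n}) N ∪ (Icc 1 N).filter Nat.Prime ∪ {1} := by
    intro n hn
    rw [mem_upto] at hn
    rw [Finset.mem_union, Finset.mem_union, Finset.mem_singleton, mem_upto, Finset.mem_filter,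
      Finset.mem_Icc]
    by_cases h3 : Lac C X n
    · have h4 : ArithmeticFunction.cardFactors n < 2 := by
        by_contra h5
        exact hn.2.2 ⟨h3, by omega⟩
      rcases Nat.lt_or_ge (ArithmeticFunction.cardFactors n) 1 with h5 | h5
      · refine Or.inr ?_
        have h6 : ArithmeticFunction.cardFactors n = 0 := by omega
        rw [ArithmeticFunction.cardFactors_eq_zero_iff_eq_zero_or_one] at h6
        omega
      · exact Or.inl (Or.inr ⟨hn.1,
          ArithmeticFunction.cardFactors_eq_one_iff_prime.1 (by omega)⟩)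
    · exact Or.inl (Or.inl ⟨hn.1, hn.2.1, h3⟩)
  have h3 := (Finset.card_le_card h2).trans (Finset.card_union_le _ _)
  have h4 := Finset.card_union_le (upto (Sk (k + 2) \ {n | Lac C X n}) N)
    ((Icc 1 N).filter Nat.Prime)
  rw [Finset.card_singleton] at h3
  rw [card_primes] at h4
  have h5 : cnt (Sk (k + 2) \ {n | Lac C X n ∧ 2 ≤ ArithmeticFunction.cardFactors n}) N ≤
      cnt (Sk (k + 2) \ {n | Lac C X n}) N + Nat.primeCounting N + 1 := by
    unfold cnt
    omega
  exact_mod_cast h5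

end Pool.Agent.Q147.MO
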