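import Pool.Agent.Q147.MO.Count
import Pool.Agent.Q147.MM.GreedyG

/-!
# The greedy basis of the monomials numbered by products of rapidly increasing primes
-/

set_option autoImplicit false

namespace Pool.Agent.Q147.MO

open Module Finset
open Pool.Agent.Q147.MM
open Pool.Agent.Y787 (QC mem_QC HypC)

open scoped Classical in
/-- the primes `q ≤ N / a` with `C a q` -/
noncomputable def Qs (C : ℕ → ℕ → Prop) (a N : ℕ) : Finset ℕ :=
  (Icc 1 (N / a)).filter (fun q => q.Prime ∧ C a q)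

theorem mem_Qs {C : ℕ → ℕ → Prop} {a N q : ℕ} :
    q ∈ Qs C a N ↔ (1 ≤ q ∧ q ≤ N / a) ∧ q.Prime ∧ C a q := by
  classical
  rw [Qs, Finset.mem_filter, Finset.mem_Icc]

/-- the products with a cofactor in `G` -/
def EE (C : ℕ → ℕ → Prop) (G : Set ℕ) : Set ℕ :=
  {n | ∃ a q, n = a * q ∧ a ∈ G ∧ 0 < a ∧ q.Prime ∧ C a q}

/-- the products `p₁ ⋯ p_k` with `C (p₁ ⋯ p_j) p_{j+1}` for all `j` -/
abbrev RS (C : ℕ → ℕ → Prop) : Set ℕ := {n | Lac C ∅ n}

theorem cnt_EE (C : ℕ → ℕ → Prop) (G : Set ℕ) {N z : ℕ} (hb : Bd C N z) :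
    cnt (EE C G) N ≤ ∑ a ∈ upto G z, (Qs C a N).card := by
  classical
  have h1 : upto (EE C G) N ⊆ ((upto G z).sigma fun a => Qs C a N).image
      (fun p => p.1 * p.2) := by
    intro n hn
    rw [mem_upto] at hn
    obtain ⟨⟨hn1, hnN⟩, a, q, rfl, haG, ha, hq, hc⟩ := hn
    rw [Finset.mem_image]
    refine ⟨⟨a, q⟩, ?_, rfl⟩
    rw [Finset.mem_sigma, mem_Qs, mem_upto]
    refine ⟨⟨⟨ha, hb a q ha hq hc hnN⟩, haG⟩, ⟨hq.one_lt.le, ?_⟩, hq, hc⟩
    show q ≤ N / a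
    rw [Nat.le_div_iff_mul_le ha]
    rwa [Nat.mul_comm]
  refine (Finset.card_le_card h1).trans (Finset.card_image_le.trans ?_)
  rw [Finset.card_sigma]

/-- number of exceptions -/
theorem exc (C : ℕ → ℕ → Prop) (G G' : Set ℕ) (h : ∀ n ∈ G', n ≠ 1 → n ∈ EE C G) (N : ℕ) :
    cnt (EE C G \ G') N + cnt G' N ≤ cnt (EE C G) N + 1 := by
  classical
  have h1 : Disjoint (upto (EE C G \ G') N) ((upto G' N).erase 1) := by
    rw [Finset.disjoint_left]
    intro n hn hn'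
    rw [Finset.mem_erase, mem_upto] at hn'
    rw [mem_upto] at hn
    exact hn.2.2 hn'.2.2
  have h2 : upto (EE C G \ G') N ∪ (upto G' N).erase 1 ⊆ upto (EE C G) N := by
    intro n hn
    rw [Finset.mem_union, Finset.mem_erase, mem_upto, mem_upto] at hn
    rw [mem_upto]
    rcases hn with hn | hn
    · exact ⟨hn.1, hn.2.1⟩
    · exact ⟨hn.2.1, h n hn.2.2 hn.1⟩
  have h3 := Finset.card_le_card h2
  rw [Finset.card_union_of_disjoint h1] at h3
  have h4 : (upto G' N).card ≤ ((upto G' N).erase 1).card + 1 := by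
    have := Finset.pred_card_le_card_erase (s := upto G' N) (a := 1)
    omega
  unfold cnt
  omega

variable {Cc : Type} [Field Cc] [CharZero Cc] {Lt : Submodule (QC Cc) Cc} {l : ℕ → Cc}

omit [CharZero Cc] in
theorem vv_mul (w l : ℕ → Cc) {R : ℕ} (hR : 0 < R) {m q : ℕ} (hm : m / R ≠ 0) (hq : q ≠ 0) :
    vv w l R m * lam l q = vv w l R (m / R * q * R + m % R) := by
  have hmod := Nat.mod_lt m hR
  rw [vv, vv, div_code hmod, mod_code hmod, lam_mul l hm hq, mul_assoc]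

/-- the cofactor of an element of the greedy basis is in the greedy basis -/
theorem Gi_EE {C : ℕ → ℕ → Prop} (hC : Adm C) (w l : ℕ → Cc) {R : ℕ} (hR : 0 < R) {i : ℕ} (hi : i < R) {n : ℕ}
    (hn : n ∈ Gi (QC Cc) (vv w l R) (RS C) R i) (hn1 : n ≠ 1) :
    n ∈ EE C (Gi (QC Cc) (vv w l R) (RS C) R i) := by
  have hnR : Lac C ∅ n := Gi_subset _ _ hi hn
  obtain ⟨a, q, rfl, ha, hq, hc⟩ := hnR.fac hn1
  refine ⟨a, q, rfl, ?_, ha.pos, hq, hc⟩
  by_contra haG
  have h1 : vv w l R (a * R + i) ∈ Submodule.span (QC Cc)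
      (vv w l R '' {m | m ∈ {m | m / R ∈ RS C} ∧ m < a * R + i}) := by
    by_contra h2
    refine haG ⟨?_, h2⟩
    show (a * R + i) / R ∈ RS C
    rw [div_code hi]
    exact ha
  refine hn.2 ?_
  have h2 := Submodule.mem_map_of_mem (f := LinearMap.mulRight (QC Cc) (lam l q)) h1
  rw [LinearMap.mulRight_apply, vv_mul w l hR (by rw [div_code hi]; exact ha.pos.ne')
    hq.ne_zero, div_code hi, mod_code hi, Submodule.map_span] at h2
  refine Submodule.span_mono ?_ h2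
  rintro _ ⟨_, ⟨m, ⟨hmR, hm⟩, rfl⟩, rfl⟩
  have hmR' : Lac C ∅ (m / R) := hmR
  rw [LinearMap.mulRight_apply, vv_mul w l hR hmR'.pos.ne' hq.ne_zero]
  have hmod := Nat.mod_lt m hR
  have hcode : m / R * R + m % R = m := Nat.div_add_mod' m R
  have hle : m / R ≤ a := by
    have h3 : m / R ≤ (a * R + i) / R := Nat.div_le_div_right hm.le
    rwa [div_code hi] at h3
  refine Set.mem_image_of_mem _ ⟨?_, ?_⟩
  · show (m / R * q * R + m % R) / R ∈ RS C
    rw [div_code hmod]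
    exact Lac.mul _ _ hmR' hq (hC.mono hle hc) (Set.notMem_empty _)
  · rcases Nat.lt_or_ge (m / R) a with h3 | h3
    · have h4 : m / R * q + 1 ≤ a * q := by
        have h5 : (m / R + 1) * q ≤ a * q := Nat.mul_le_mul_right q h3
        have h6 : (m / R + 1) * q = m / R * q + q := by ring
        have := hq.pos
        omega
      have h5 : (m / R * q + 1) * R ≤ a * q * R := Nat.mul_le_mul_right R h4
      have h6 : (m / R * q + 1) * R = m / R * q * R + R := by ring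
      omega
    · have h4 : m / R = a := le_antisymm hle h3
      rw [h4] at hcode ⊢
      omega

theorem Gi_of_mod (w l : ℕ → Cc) {R : ℕ} {S : Set ℕ} {i n : ℕ}
    (hn : n ∈ Gi (QC Cc) (fun m => Lt.mkQ (vv w l R m)) S R i) :
    n ∈ Gi (QC Cc) (vv w l R) S R i := by
  refine ⟨hn.1, fun h => hn.2 ?_⟩
  have h2 := Submodule.mem_map_of_mem (f := Lt.mkQ) h
  rw [Submodule.map_span, ← Set.image_comp] at h2
  exact h2

variable [HypC Lt]

/-- the cofactor of an element of the greedy basis modulo `Lt` -/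
theorem Gi_EEM {C : ℕ → ℕ → Prop} (hC : Adm C) (h : Good Lt l) (w : ℕ → Cc) (hw0 : w 0 = 1) {R : ℕ} (hR : 0 < R) {i : ℕ}
    (hi : i < R) {n : ℕ} (hn : n ∈ Gi (QC Cc) (fun m => Lt.mkQ (vv w l R m)) (RS C) R i)
    (hn1 : n ≠ 1) :
    n ∈ EE C {a | a ∈ Gi (QC Cc) (vv w l R) (RS C) R i ∧ ¬ (i = 0 ∧ a = 1)} := by
  obtain ⟨a, q, rfl, haG, ha, hq, hc⟩ := Gi_EE hC w l hR hi (Gi_of_mod w l hn) hn1
  refine ⟨a, q, rfl, ⟨haG, ?_⟩, ha, hq, hc⟩
  rintro ⟨rfl, rfl⟩
  refine hn.2 ?_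
  have h3 : (fun m => Lt.mkQ (vv w l R m)) (1 * q * R + 0) = 0 := by
    show Lt.mkQ (vv w l R (1 * q * R + 0)) = 0
    rw [vv, mod_code hR, div_code hR, hw0, one_mul, one_mul]
    exact (Submodule.Quotient.mk_eq_zero Lt).2 (h.mem' (Or.inr hq))
  rw [h3]
  exact Submodule.zero_mem _

/-- **Recursion.** -/
theorem recR (C : ℕ → ℕ → Prop) (h : Good Lt l) (w : ℕ → Cc) (R : ℕ) (hR : 0 < R) (z N : ℕ) :
    ∑ i ∈ range R, ∑ a ∈ upto (Gi (QC Cc) (vv w l R) (RS C) R i) z, (Qs C a N).card ≤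
      ∑ i ∈ range R, cnt (Gi (QC Cc) (vv w l R) (RS C) R i) N + (R * z) ^ 2 := by
  have hS : ∀ n ∈ RS C, n ≠ 0 := fun n hn => Lac.pos hn |>.ne'
  set A := PP (Gi (QC Cc) (vv w l R) (RS C) R) R z with hAdef
  have : FiniteDimensional (QC Cc)
      (Submodule.span (QC Cc) (vv w l R '' {m | m / R ∈ RS C ∧ m / R ≤ N})) :=
    FiniteDimensional.span_of_finite _ ((fin_pairs (RS C) R hR N).image _)
  have h1 := core h A (fun p => w p.1 * lam l p.2) ?_
    (fun p => Qs C p.2 N) ?_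
    (Submodule.span (QC Cc) (vv w l R '' {m | m / R ∈ RS C ∧ m / R ≤ N})) ?_
  · have h2 : A.card ≤ R * z := card_PP_le _ _ _
    have h3 : A.card * (A.card - 1) ≤ (R * z) ^ 2 := by
      rw [sq]; exact Nat.mul_le_mul h2 (by omega)
    rw [hAdef, PP, Finset.sum_sigma] at h1
    exact h1.trans (Nat.add_le_add (finrank_pairs (vv w l R) (RS C) hS R hR N) h3)
  · refine (PP_li (vv w l R) (RS C) R z).congr fun p hp => ?_
    rw [Finset.mem_coe, mem_PP] at hp
    exact vv_code w l hp.1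
  · intro a _ q hq
    exact Or.inr (mem_Qs.1 hq).2.1
  · rintro ⟨i, a⟩ ha q hq
    rw [mem_Qs] at hq
    rw [hAdef, mem_PP] at ha
    simp only at ha hq ⊢
    refine Submodule.subset_span ⟨(a * q) * R + i, ⟨?_, ?_⟩, ?_⟩
    · rw [div_code ha.1]
      exact Lac.mul a q (Gi_subset _ _ ha.1 ha.2.2) hq.2.1 hq.2.2 (Set.notMem_empty _)
    · rw [div_code ha.1]
      calc a * q ≤ a * (N / a) := Nat.mul_le_mul_left _ hq.1.2
        _ ≤ N := Nat.mul_div_le N a
    · rw [vv, div_code ha.1, mod_code ha.1, lam_mul l (by omega) hq.2.1.ne_zero, mul_assoc]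

/-- **Recursion modulo `Lt`.** -/
theorem recRM (C : ℕ → ℕ → Prop) (h : Good Lt l) (w : ℕ → Cc) (hw0 : w 0 = 1) (R : ℕ) (hR : 0 < R) (z N : ℕ) :
    ∑ i ∈ range R, ∑ a ∈ upto {a | a ∈ Gi (QC Cc) (vv w l R) (RS C) R i ∧ ¬ (i = 0 ∧ a = 1)} z,
        (Qs C a N).card ≤
      ∑ i ∈ range R, cnt (Gi (QC Cc) (fun m => Lt.mkQ (vv w l R m)) (RS C) R i) N +
        (R * z) ^ 2 := by
  classical
  have hS : ∀ n ∈ RS C, n ≠ 0 := fun n hn => Lac.pos hn |>.ne'
  set A := PP (fun i => {a | a ∈ Gi (QC Cc) (vv w l R) (RS C) R i ∧ ¬ (i = 0 ∧ a = 1)}) R z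
    with hAdef
  have hmem : ∀ p ∈ A, p ≠ ⟨0, 1⟩ ∧ p.1 < R ∧ (1 ≤ p.2 ∧ p.2 ≤ z) ∧
      p.2 ∈ Gi (QC Cc) (vv w l R) (RS C) R p.1 := by
    rintro ⟨i, a⟩ hp
    rw [hAdef, mem_PP] at hp
    refine ⟨?_, hp.1, hp.2.1, hp.2.2.1⟩
    intro he
    refine hp.2.2.2 ⟨?_, ?_⟩
    · exact congrArg Sigma.fst he
    · exact congrArg Sigma.snd he
  have : FiniteDimensional (QC Cc) (Submodule.span (QC Cc)
      ((fun m => Lt.mkQ (vv w l R m)) '' {m | m / R ∈ RS C ∧ m / R ≤ N})) :=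
    FiniteDimensional.span_of_finite _ ((fin_pairs (RS C) R hR N).image _)
  have hRG : R ∈ Gr (QC Cc) (vv w l R) {m | m / R ∈ RS C} := by
    refine ⟨?_, ?_⟩
    · show R / R ∈ RS C
      rw [Nat.div_self hR]
      exact Lac.one
    · have h2 : {m | m ∈ {m | m / R ∈ RS C} ∧ m < R} = (∅ : Set ℕ) := by
        ext m
        simp only [Set.mem_ofPred_eq, Set.mem_empty_iff_false, iff_false, not_and]
        intro hm hmR
        exact hS _ hm (Nat.div_eq_of_lt hmR)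
      rw [h2, vv, Nat.mod_self, Nat.div_self hR, hw0, lam_one]
      simp
  have hins : LinearIndepOn (QC Cc) (vv w l R)
      (insert R (code R '' (A : Set (Σ _ : ℕ, ℕ)))) := by
    refine (Gr_li (vv w l R) {m | m / R ∈ RS C}).mono ?_
    rintro _ (rfl | ⟨p, hp, rfl⟩)
    · exact hRG
    · exact (hmem p (by exact_mod_cast hp)).2.2.2
  have hinj : Set.InjOn (code R) (A : Set (Σ _ : ℕ, ℕ)) :=
    (code_injOn R).mono fun p hp => (hmem p (by exact_mod_cast hp)).2.1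
  have hRn : R ∉ code R '' (A : Set (Σ _ : ℕ, ℕ)) := by
    rintro ⟨p, hp, hpR⟩
    have h2 := hmem p (by exact_mod_cast hp)
    refine h2.1 (code_injOn R h2.2.1 (show (0 : ℕ) < R from hR) ?_)
    rw [hpR]
    simp [code]
  rw [linearIndepOn_insert hRn] at hins
  have hvR : vv w l R R = 1 := by rw [vv, Nat.mod_self, Nat.div_self hR, hw0, lam_one, one_mul]
  have hxe : ∀ p ∈ (A : Set (Σ _ : ℕ, ℕ)), (vv w l R ∘ code R) p = w p.1 * lam l p.2 :=
    fun p hp => vv_code w l (hmem p (by exact_mod_cast hp)).2.1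
  have h1 := coreM h A (fun p => w p.1 * lam l p.2) ?_ ?_
    (fun p => Qs C p.2 N) ?_
    (Submodule.span (QC Cc) ((fun m => Lt.mkQ (vv w l R m)) '' {m | m / R ∈ RS C ∧ m / R ≤ N})) ?_
  · have h4 : (A.card + 1) * A.card ≤ (R * z) ^ 2 := by
      rcases Nat.eq_zero_or_pos z with rfl | hz
      · have h5 : A = ∅ := by
          rw [Finset.eq_empty_iff_forall_notMem]
          intro p hp
          have := (hmem p hp).2.2.1
          omega
        rw [h5]; simp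
      · have h5 : A ⊆ ((range R).sigma fun _ => Icc 1 z).erase ⟨0, 1⟩ := by
          intro p hp
          have h6 := hmem p hp
          rw [Finset.mem_erase, Finset.mem_sigma, Finset.mem_range, Finset.mem_Icc]
          exact ⟨h6.1, h6.2.1, h6.2.2.1⟩
        have h9 : (⟨0, 1⟩ : Σ _ : ℕ, ℕ) ∈ (range R).sigma fun _ => Icc 1 z := by
          rw [Finset.mem_sigma, Finset.mem_range, Finset.mem_Icc]
          exact ⟨hR, le_rfl, hz⟩
        have h10 : ((range R).sigma fun _ => Icc 1 z).card = R * z := by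
          rw [Finset.card_sigma]
          simp
        have h7 := Finset.card_le_card h5
        rw [Finset.card_erase_of_mem h9, h10] at h7
        have h8 : 0 < R * z := Nat.mul_pos hR hz
        rw [sq]
        exact Nat.mul_le_mul (by omega) (by omega)
    rw [hAdef, PP, Finset.sum_sigma] at h1
    exact h1.trans (Nat.add_le_add
      (finrank_pairs (fun m => Lt.mkQ (vv w l R m)) (RS C) hS R hR N) h4)
  · exact (hins.1.comp_of_image hinj).congr hxe
  · have h2 := hins.2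
    rw [hvR] at h2
    have h3 : (fun p : Σ _ : ℕ, ℕ => w p.1 * lam l p.2) '' (A : Set (Σ _ : ℕ, ℕ)) =
        vv w l R '' (code R '' (A : Set (Σ _ : ℕ, ℕ))) := by
      rw [← Set.image_comp]
      exact (Set.image_congr hxe).symm
    rw [h3]
    exact h2
  · intro a _ q hq
    exact Or.inr (mem_Qs.1 hq).2.1
  · rintro ⟨i, a⟩ ha q hq
    rw [mem_Qs] at hq
    have ha' := hmem _ ha
    simp only at ha' hq ⊢
    refine Submodule.subset_span ⟨(a * q) * R + i, ⟨?_, ?_⟩, ?_⟩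
    · rw [div_code ha'.2.1]
      exact Lac.mul a q (Gi_subset _ _ ha'.2.1 ha'.2.2.2) hq.2.1 hq.2.2 (Set.notMem_empty _)
    · rw [div_code ha'.2.1]
      calc a * q ≤ a * (N / a) := Nat.mul_le_mul_left _ hq.1.2
        _ ≤ N := Nat.mul_div_le N a
    · simp only [vv]
      rw [div_code ha'.2.1, mod_code ha'.2.1, lam_mul l (by omega) hq.2.1.ne_zero, mul_assoc]

/-- **Few exceptions.** -/
theorem excR {C : ℕ → ℕ → Prop} (hC : Adm C) (h : Good Lt l) (w : ℕ → Cc) (R : ℕ) (hR : 0 < R)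
    {N z : ℕ} (hb : Bd C N z) :
    ∑ i ∈ range R, cnt (EE C (Gi (QC Cc) (vv w l R) (RS C) R i) \ Gi (QC Cc) (vv w l R) (RS C) R i) N ≤
      (R * z) ^ 2 + R := by
  have h1 := recR C h w R hR z N
  have h2 : ∑ i ∈ range R, (cnt (EE C (Gi (QC Cc) (vv w l R) (RS C) R i) \
      Gi (QC Cc) (vv w l R) (RS C) R i) N + cnt (Gi (QC Cc) (vv w l R) (RS C) R i) N) ≤
      ∑ i ∈ range R, (∑ a ∈ upto (Gi (QC Cc) (vv w l R) (RS C) R i) (z), (Qs C a N).card + 1) :=
    Finset.sum_le_sum fun i hi => (exc C _ _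
      (fun n hn hn1 => Gi_EE hC w l hR (Finset.mem_range.1 hi) hn hn1) N).trans
      (Nat.add_le_add_right (cnt_EE C _ hb) 1)
  rw [Finset.sum_add_distrib, Finset.sum_add_distrib, Finset.sum_const, Finset.card_range,
    smul_eq_mul, mul_one] at h2
  omega

/-- **Few exceptions modulo `Lt`.** -/
theorem excRM {C : ℕ → ℕ → Prop} (hC : Adm C) (h : Good Lt l) (w : ℕ → Cc) (hw0 : w 0 = 1) (R : ℕ)
    (hR : 0 < R) {N z : ℕ} (hb : Bd C N z) :
    ∑ i ∈ range R, cnt (EE C {a | a ∈ Gi (QC Cc) (vv w l R) (RS C) R i ∧ ¬ (i = 0 ∧ a = 1)} \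
      Gi (QC Cc) (fun m => Lt.mkQ (vv w l R m)) (RS C) R i) N ≤ (R * z) ^ 2 + R := by
  have h1 := recRM C h w hw0 R hR z N
  have h2 : ∑ i ∈ range R, (cnt (EE C {a | a ∈ Gi (QC Cc) (vv w l R) (RS C) R i ∧ ¬ (i = 0 ∧ a = 1)} \
      Gi (QC Cc) (fun m => Lt.mkQ (vv w l R m)) (RS C) R i) N +
      cnt (Gi (QC Cc) (fun m => Lt.mkQ (vv w l R m)) (RS C) R i) N) ≤
      ∑ i ∈ range R, (∑ a ∈ upto {a | a ∈ Gi (QC Cc) (vv w l R) (RS C) R i ∧ ¬ (i = 0 ∧ a = 1)}
        (z), (Qs C a N).card + 1) :=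
    Finset.sum_le_sum fun i hi => (exc C _ _
      (fun n hn hn1 => Gi_EEM hC h w hw0 hR (Finset.mem_range.1 hi) hn hn1) N).trans
      (Nat.add_le_add_right (cnt_EE C _ hb) 1)
  rw [Finset.sum_add_distrib, Finset.sum_add_distrib, Finset.sum_const, Finset.card_range,
    smul_eq_mul, mul_one] at h2
  omega

end Pool.Agent.Q147.MO
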