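import Pool.Agent.Q147.MO.GreedyR
import Pool.Agent.Q147.MO.AnaR

/-!
# Densities and counting functions
-/

set_option autoImplicit false

namespace Pool.Agent.Q147.MO

open Finset Filter Topology
open Pool.Agent.Q147.MM

/-- a function which is small in comparison with `N / log N` is negligible -/
theorem negl_of_small (f : ℕ → ℝ) (hf : ∀ᶠ N in atTop, 0 ≤ f N)
    (h : Tendsto (fun N : ℕ => f N * Real.log N / N) atTop (𝓝 0)) (k : ℕ) :
    Tendsto (fun N : ℕ => f N / (cnt (Sk (k + 1)) N : ℝ)) atTop (𝓝 0) := by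
  obtain ⟨c0, C0, hc0, hC0, hcheb⟩ := cheb
  have hlim : Tendsto (fun N : ℕ => c0⁻¹ * (f N * Real.log N / N)) atTop (𝓝 0) := by
    simpa using h.const_mul c0⁻¹
  refine squeeze_zero' ?_ ?_ hlim
  · filter_upwards [hf] with N hN
    positivity
  · filter_upwards [eventually_ge_atTop 2, hf] with N hN hfN
    have hl : 0 < Real.log (N : ℝ) := Real.log_pos (by exact_mod_cast (by omega : 1 < N))
    have hNpos : (0 : ℝ) < N := by exact_mod_cast (by omega : 0 < N)
    have hcnt : c0 * (N / Real.log N) ≤ (cnt (Sk (k + 1)) N : ℝ) :=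
      le_trans (hcheb N hN).1 (by exact_mod_cast Pool.Agent.Q24.MM.primeCounting_le_cnt k N)
    have hpos : 0 < c0 * (N / Real.log N) := by positivity
    calc f N / (cnt (Sk (k + 1)) N : ℝ) ≤ f N / (c0 * (N / Real.log N)) :=
          div_le_div_of_nonneg_left hfN hpos hcnt
      _ = c0⁻¹ * (f N * Real.log N / N) := by
          field_simp

/-- powers with exponent less than one -/
theorem negl_rpow (C s : ℝ) (hs : s < 1) (f : ℕ → ℝ)
    (hf : ∀ᶠ N : ℕ in atTop, 0 ≤ f N ∧ f N ≤ C * (N : ℝ) ^ s) (k : ℕ) :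
    Tendsto (fun N : ℕ => f N / (cnt (Sk (k + 1)) N : ℝ)) atTop (𝓝 0) := by
  refine negl_of_small f (hf.mono fun N h => h.1) ?_ k
  have h1 : Tendsto (fun x : ℝ => Real.log x / x ^ (1 - s)) atTop (𝓝 0) :=
    (isLittleO_log_rpow_atTop (by linarith : (0 : ℝ) < 1 - s)).tendsto_div_nhds_zero
  have h2 : Tendsto (fun N : ℕ => C * (Real.log N / (N : ℝ) ^ (1 - s))) atTop (𝓝 0) := by
    simpa using (h1.comp tendsto_natCast_atTop_atTop).const_mul C
  refine squeeze_zero' ?_ ?_ h2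
  · filter_upwards [hf] with N hN
    have := Real.log_natCast_nonneg N
    have := hN.1
    positivity
  · filter_upwards [hf, eventually_ge_atTop 1] with N hN hN1
    have hNpos : (0 : ℝ) < N := by exact_mod_cast hN1
    have hl := Real.log_natCast_nonneg N
    have h3 : f N * Real.log N ≤ C * (N : ℝ) ^ s * Real.log N :=
      mul_le_mul_of_nonneg_right hN.2 hl
    have h4 : (N : ℝ) ^ (1 - s) * (N : ℝ) ^ s = N := by
      rw [← Real.rpow_add hNpos]
      simp
    have h5 : 0 < (N : ℝ) ^ (1 - s) := Real.rpow_pos_of_pos hNpos _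
    have h6 : 0 < (N : ℝ) ^ s := Real.rpow_pos_of_pos hNpos _
    rw [div_le_iff₀ hNpos]
    calc f N * Real.log N ≤ C * (N : ℝ) ^ s * Real.log N := h3
      _ = C * (Real.log N / (N : ℝ) ^ (1 - s)) * ((N : ℝ) ^ (1 - s) * (N : ℝ) ^ s) := by
        field_simp
      _ = C * (Real.log N / (N : ℝ) ^ (1 - s)) * N := by rw [h4]

/-- the power of two used as a bound for cofactors -/
def zK (K N : ℕ) : ℕ := 2 ^ (Nat.log 2 N / (2 * (K + 1)))

theorem zK_ev (K : ℕ) : ∀ᶠ N : ℕ in atTop, 1 ≤ zK K N ∧ N ≤ zK K N ^ (4 * (K + 1)) := by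
  filter_upwards [eventually_ge_atTop (2 ^ (2 * (K + 1)))] with N hN
  refine ⟨Nat.one_le_two_pow, ?_⟩
  have h1 : 2 * (K + 1) ≤ Nat.log 2 N := Nat.le_log_of_pow_le (by norm_num) hN
  set j := Nat.log 2 N / (2 * (K + 1)) with hj
  have h2 : 1 ≤ j := (Nat.one_le_div_iff (by omega)).2 h1
  have h3 : N < 2 ^ (Nat.log 2 N + 1) := Nat.lt_pow_succ_log_self (by norm_num) N
  have h4 : Nat.log 2 N < (j + 1) * (2 * (K + 1)) := by
    have h5 := Nat.lt_mul_div_succ (Nat.log 2 N) (show 0 < 2 * (K + 1) by omega)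
    rw [← hj, Nat.mul_comm] at h5
    exact h5
  have h5 : Nat.log 2 N + 1 ≤ j * (4 * (K + 1)) := by nlinarith
  rw [zK, ← pow_mul]
  exact h3.le.trans (Nat.pow_le_pow_right (by norm_num) h5)

theorem zK_pow (K N : ℕ) (hN : 1 ≤ N) : (zK K N ^ (K + 1)) ^ 2 ≤ N := by
  rw [zK, ← pow_mul, ← pow_mul]
  refine le_trans (Nat.pow_le_pow_right (by norm_num) ?_) (Nat.pow_log_le_self 2 (by omega))
  calc Nat.log 2 N / (2 * (K + 1)) * ((K + 1) * 2) = Nat.log 2 N / (2 * (K + 1)) * (2 * (K + 1)) := by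
        ring
    _ ≤ Nat.log 2 N := Nat.div_mul_le_self _ _

/-- **Densities for the relation `a ^ K ≤ q`.** -/
theorem dens_CK (K : ℕ) (hK : 1 ≤ K) (X : Set ℕ) (C s : ℝ) (hs : s < 1)
    (hX : ∀ N : ℕ, 1 ≤ N → (cnt X N : ℝ) ≤ C * (N : ℝ) ^ s) (k : ℕ) :
    Tendsto (fun N : ℕ =>
      (cnt (Sk (k + 2) \ {n | Lac (CK K) X n ∧ 2 ≤ ArithmeticFunction.cardFactors n}) N : ℝ) /
        cnt (Sk (k + 2)) N) atTop (𝓝 0) := by
  refine lac_dense2 (CK K) X (4 * (K + 1)) (zK K) (fun N => zK K N ^ (K + 1)) (zK_ev K) ?_ ?_ ?_ k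
  · intro N a q ha haz hq _ hc
    rw [CK, not_and_or] at hc
    rcases hc with hc | hc
    · calc a * q ≤ a * a := Nat.mul_le_mul_left a (by omega)
        _ = a ^ 2 := (sq a).symm
        _ ≤ a ^ (K + 1) := Nat.pow_le_pow_right ha (by omega)
        _ ≤ zK K N ^ (K + 1) := Nat.pow_le_pow_left haz _
    · calc a * q ≤ a * a ^ K := Nat.mul_le_mul_left a (by omega)
        _ = a ^ (K + 1) := by rw [pow_succ, Nat.mul_comm]
        _ ≤ zK K N ^ (K + 1) := Nat.pow_le_pow_left haz _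
  · intro k
    refine negl_rpow 1 (1 / 2) (by norm_num) _ ?_ k
    filter_upwards [eventually_ge_atTop 1] with N hN
    refine ⟨Nat.cast_nonneg _, ?_⟩
    have h1 : (((zK K N ^ (K + 1) : ℕ) : ℝ)) ^ 2 ≤ N := by exact_mod_cast zK_pow K N hN
    rw [one_mul, ← Real.sqrt_eq_rpow]
    exact Real.le_sqrt_of_sq_le h1
  · intro k
    refine negl_rpow C s hs _ ?_ k
    filter_upwards [eventually_ge_atTop 1] with N hN
    exact ⟨Nat.cast_nonneg _, hX N hN⟩

/-- a bound for the cofactors for the relation `a ^ K ≤ q` -/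
theorem CK.bd' (K N : ℕ) (hN : 1 ≤ N) :
    Bd (CK K) N ⌊(N : ℝ) ^ (1 / ((K : ℝ) + 1))⌋₊ ∧
      ((⌊(N : ℝ) ^ (1 / ((K : ℝ) + 1))⌋₊ : ℕ) : ℝ) ^ 2 ≤ (N : ℝ) ^ (2 / ((K : ℝ) + 1)) := by
  have hNpos : (0 : ℝ) < N := by exact_mod_cast hN
  have hK : (K : ℝ) + 1 ≠ 0 := by positivity
  set y : ℝ := (N : ℝ) ^ (1 / ((K : ℝ) + 1)) with hy
  have hy0 : 0 ≤ y := by positivity
  have h1 : y ^ (K + 1) = N := by
    rw [hy, ← Real.rpow_natCast, ← Real.rpow_mul hNpos.le]
    push_cast
    rw [one_div_mul_cancel hK, Real.rpow_one]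
  refine ⟨CK.bd K N _ ?_, ?_⟩
  · have h2 : y < (⌊y⌋₊ : ℝ) + 1 := Nat.lt_floor_add_one y
    have h3 : y ^ (K + 1) < ((⌊y⌋₊ : ℝ) + 1) ^ (K + 1) := pow_lt_pow_left₀ h2 hy0 (by omega)
    rw [h1] at h3
    exact_mod_cast h3
  · have h2 : ((⌊y⌋₊ : ℕ) : ℝ) ^ 2 ≤ y ^ 2 :=
      pow_le_pow_left₀ (Nat.cast_nonneg _) (Nat.floor_le hy0) 2
    refine h2.trans (le_of_eq ?_)
    rw [hy, ← Real.rpow_natCast, ← Real.rpow_mul hNpos.le]
    congr 1
    push_cast
    ring

/-- **Densities for the relation `a * gg (a * q) ≤ q`.** -/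
theorem dens_CL (X : Set ℕ) (D : ℝ)
    (hX : ∀ N : ℕ, (cnt X N : ℝ) ≤ D * (zz N : ℝ) ^ 2 + D) (k : ℕ) :
    Tendsto (fun N : ℕ =>
      (cnt (Sk (k + 2) \ {n | Lac CL X n ∧ 2 ≤ ArithmeticFunction.cardFactors n}) N : ℝ) /
        cnt (Sk (k + 2)) N) atTop (𝓝 0) := by
  refine lac_dense2 CL X 4 z2 (fun N => z2 N ^ 2 * gg N) ?_ ?_ ?_ ?_ k
  · filter_upwards [eventually_ge_atTop (17 ^ 16)] with N hN
    exact ⟨one_le_z2 hN, le_z2_pow hN⟩
  · intro N a q ha haz hq hN hc
    have h1 : q ≤ a * gg (a * q) := by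
      unfold CL at hc
      omega
    calc a * q ≤ a * (a * gg (a * q)) := Nat.mul_le_mul_left a h1
      _ = a ^ 2 * gg (a * q) := by ring
      _ ≤ z2 N ^ 2 * gg N := Nat.mul_le_mul (Nat.pow_le_pow_left haz 2) (gg_mono hN)
  · intro k
    have := negl_z2 k
    push_cast
    exact this
  · intro k
    have h1 := ((b4.1 k).const_mul D).add (negl_const k D)
    simp only [mul_zero, add_zero] at h1
    refine squeeze_zero (fun N => by positivity) (fun N => ?_) h1
    rw [← mul_div_assoc, ← add_div]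
    exact div_le_div_of_nonneg_right (hX N) (Nat.cast_nonneg _)

theorem primes_le_Qs {a N : ℕ} (_ha : 1 ≤ a) :
    Nat.primeCounting (N / a) ≤ (Qs CL a N).card + a * gg N := by
  classical
  rw [← Pool.Agent.Q211.MM.card_primes]
  have h1 : (Icc 1 (N / a)).filter Nat.Prime ⊆ Qs CL a N ∪ Icc 1 (a * gg N) := by
    intro q hq
    rw [Finset.mem_filter, Finset.mem_Icc] at hq
    rw [Finset.mem_union, mem_Qs, Finset.mem_Icc]
    by_cases h2 : q ≤ a * gg N
    · exact Or.inr ⟨hq.1.1, h2⟩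
    · refine Or.inl ⟨hq.1, hq.2, ?_⟩
      have h3 : a * q ≤ N := by
        calc a * q ≤ a * (N / a) := Nat.mul_le_mul_left _ hq.1.2
          _ ≤ N := Nat.mul_div_le N a
      have h4 : a * gg (a * q) ≤ a * gg N := Nat.mul_le_mul_left a (gg_mono h3)
      show a * gg (a * q) ≤ q
      omega
  have h2 := (Finset.card_le_card h1).trans (Finset.card_union_le _ _)
  simpa using h2

theorem sum_primes_le (G : Set ℕ) (z N : ℕ) :
    ∑ a ∈ upto G z, Nat.primeCounting (N / a) ≤
      ∑ a ∈ upto G z, (Qs CL a N).card + z ^ 2 * gg N := by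
  have h1 : ∑ a ∈ upto G z, Nat.primeCounting (N / a) ≤
      ∑ a ∈ upto G z, ((Qs CL a N).card + z * gg N) := by
    refine Finset.sum_le_sum fun a ha => ?_
    rw [mem_upto] at ha
    exact (primes_le_Qs ha.1.1).trans
      (Nat.add_le_add_left (Nat.mul_le_mul_right _ ha.1.2) _)
  rw [Finset.sum_add_distrib, Finset.sum_const, smul_eq_mul] at h1
  have h2 : (upto G z).card ≤ z := Pool.Agent.Q95.MM.cnt_le_self G z
  have h3 : (upto G z).card * (z * gg N) ≤ z * (z * gg N) := Nat.mul_le_mul_right _ h2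
  have h4 : z * (z * gg N) = z ^ 2 * gg N := by ring
  omega

theorem small_Qs (N : ℕ) : Nat.primeCounting N ≤ (Qs CL 1 N).card + 64 := by
  classical
  rw [← Pool.Agent.Q211.MM.card_primes]
  have h1 : (Icc 1 N).filter Nat.Prime ⊆ Qs CL 1 N ∪ Icc 1 64 := by
    intro q hq
    rw [Finset.mem_filter, Finset.mem_Icc] at hq
    rw [Finset.mem_union, mem_Qs, Finset.mem_Icc, Nat.div_one]
    by_cases h2 : q ≤ 64
    · exact Or.inr ⟨hq.1.1, h2⟩
    · refine Or.inl ⟨hq.1, hq.2, ?_⟩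
      show 1 * gg (1 * q) ≤ q
      rw [one_mul, one_mul]
      set j := Nat.log 2 q with hj
      have h3 : 2 ^ j ≤ q := Nat.pow_log_le_self 2 (by omega)
      have h4 : 6 ≤ j := by
        rw [hj]
        exact Nat.le_log_of_pow_le (by norm_num) (by norm_num; omega)
      have h5 : (j + 1) ^ 2 ≤ 2 ^ j := by
        clear_value j
        clear h2 h3 hj hq
        induction j, h4 using Nat.le_induction with
        | base => norm_num
        | succ j hj ih =>
          rw [pow_succ 2 j]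
          nlinarith
      show (j + 1) ^ 2 ≤ q
      exact h5.trans h3
  have h2 := (Finset.card_le_card h1).trans (Finset.card_union_le _ _)
  simpa using h2

/-- every pair gives another product -/
theorem sum_Qs_le {C : ℕ → ℕ → Prop} (hC : Adm C) (G : Set ℕ) (z N : ℕ) :
    ∑ a ∈ upto G z, (Qs C a N).card ≤ cnt (EE C G) N := by
  classical
  rw [← Finset.card_sigma]
  refine Finset.card_le_card_of_injOn (fun p => p.1 * p.2) ?_ ?_
  · rintro ⟨a, q⟩ hp
    rw [Finset.mem_coe, Finset.mem_sigma, mem_upto, mem_Qs] at hp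
    simp only at hp ⊢
    rw [Finset.mem_coe, mem_upto]
    refine ⟨⟨Nat.mul_pos hp.1.1.1 hp.2.1.1, ?_⟩, a, q, rfl, hp.1.2, hp.1.1.1, hp.2.2.1, hp.2.2.2⟩
    calc a * q ≤ a * (N / a) := Nat.mul_le_mul_left _ hp.2.1.2
      _ ≤ N := Nat.mul_div_le N a
  · rintro ⟨a, q⟩ hp ⟨a', q'⟩ hp' he
    rw [Finset.mem_coe, Finset.mem_sigma, mem_upto, mem_Qs] at hp hp'
    simp only at hp hp' he
    obtain ⟨rfl, rfl⟩ := uniq hp.1.1.1 hp'.1.1.1 hp.2.2.1 hp'.2.2.1
      (hC.lt hp.1.1.1 hp.2.2.1 hp.2.2.2) (hC.lt hp'.1.1.1 hp'.2.2.1 hp'.2.2.2) he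
    rfl

/-- recursion for the products without initial products in `X` -/
theorem rec_lac {C : ℕ → ℕ → Prop} (hC : Adm C) (X : Set ℕ) (z N : ℕ) :
    ∑ a ∈ upto {n | Lac C X n} z, (Qs C a N).card ≤ cnt {n | Lac C X n} N + cnt X N := by
  classical
  refine (sum_Qs_le hC _ z N).trans ?_
  have h1 : upto (EE C {n | Lac C X n}) N ⊆ upto {n | Lac C X n} N ∪ upto X N := by
    intro n hn
    rw [mem_upto] at hn
    obtain ⟨hn1, a, q, rfl, ha, _, hq, hc⟩ := hn
    rw [Finset.mem_union, mem_upto, mem_upto]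
    by_cases h2 : a * q ∈ X
    · exact Or.inr ⟨hn1, h2⟩
    · exact Or.inl ⟨hn1, Lac.mul a q ha hq hc h2⟩
  exact (Finset.card_le_card h1).trans (Finset.card_union_le _ _)

theorem log_sq_le {N : ℕ} (hN : 1 ≤ N) : Real.log N ^ 2 ≤ 4 * N := by
  have hNpos : (0 : ℝ) < N := by exact_mod_cast hN
  have h1 : Real.log (√(N : ℝ)) ≤ √(N : ℝ) - 1 :=
    Real.log_le_sub_one_of_pos (Real.sqrt_pos.2 hNpos)
  rw [Real.log_sqrt hNpos.le] at h1
  have h2 : Real.log N ≤ 2 * √(N : ℝ) := by linarith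
  have h3 : 0 ≤ Real.log N := Real.log_natCast_nonneg N
  have h4 := pow_le_pow_left₀ h3 h2 2
  rw [mul_pow, Real.sq_sqrt hNpos.le] at h4
  linarith

/-- **The counting function for the relation `a * gg (a * q) ≤ q`.** -/
theorem count_CL (X : Set ℕ) (D : ℝ) (hD : 0 < D)
    (hX : ∀ N : ℕ, (cnt X N : ℝ) ≤ D * (zz N : ℝ) ^ 2 + D) :
    ∃ c : ℝ, 0 < c ∧ ∀ N : ℕ, 2 ≤ N →
      c * (N / (Real.log N) ^ (9 / 40 : ℝ)) ≤ (cnt {n | Lac CL X n} N : ℝ) := by
  set B : Set ℕ := {n | Lac CL X n} with hB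
  have h1B : 1 ∈ B := Lac.one
  refine a6z (9 / 40) (by norm_num) (by norm_num) ⟨10, Pool.Agent.Q26.MM.t_A7⟩ B
    (5 * D + 9) (by positivity) ?_ ?_
  · obtain ⟨c0, C0, hc0, -, hch⟩ := cheb
    -- eventually at least half of the primes
    have h1 : ∀ᶠ N : ℕ in atTop, (64 + (D * (zz N : ℝ) ^ 2 + D)) / (cnt (Sk 1) N : ℝ) < 1 / 4 := by
      have h2 := ((negl_const 0 64).add ((b4.1 0).const_mul D)).add (negl_const 0 D)
      simp only [mul_zero, add_zero] at h2
      filter_upwards [(tendsto_order.1 h2).2 (1 / 4) (by norm_num)] with N hN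
      refine lt_of_le_of_lt (le_of_eq ?_) hN
      rw [← mul_div_assoc, ← add_div, ← add_div]
      simp only [Nat.zero_add]
      congr 1
      ring
    obtain ⟨N1, hN1⟩ := eventually_atTop.1 h1
    set c := min (c0 / 2) (Real.log 2 / (N1 + 2)) with hc
    have hl2 : 0 < Real.log 2 := Real.log_pos (by norm_num)
    refine ⟨c, lt_min (by positivity) (by positivity), fun N hN => ?_⟩
    have hNr : (2 : ℝ) ≤ N := by exact_mod_cast hN
    have hlN : Real.log 2 ≤ Real.log N := Real.log_le_log (by norm_num) hNr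
    have hlN0 : 0 < Real.log N := by linarith
    have hcnt1 : 1 ≤ cnt B N := Finset.card_pos.2 ⟨1, mem_upto.2 ⟨⟨le_rfl, by omega⟩, h1B⟩⟩
    rcases le_total N N1 with hcase | hcase
    · have h2 : c * (N / Real.log N) ≤ 1 := by
        have h3 : (N : ℝ) / Real.log N ≤ (N1 + 2) / Real.log 2 := by
          have h4 : (N : ℝ) ≤ N1 := by exact_mod_cast hcase
          exact div_le_div₀ (by positivity) (by linarith) hl2 hlN
        calc c * (N / Real.log N) ≤ (Real.log 2 / (N1 + 2)) * ((N1 + 2) / Real.log 2) :=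
              mul_le_mul (min_le_right _ _) h3 (by positivity) (by positivity)
          _ = 1 := by field_simp
      have h3 : (1 : ℝ) ≤ cnt B N := by exact_mod_cast hcnt1
      linarith
    · have h2 := hN1 N hcase
      have hpos : (0 : ℝ) < cnt (Sk 1) N := by
        exact_mod_cast Pool.Agent.Q95.MM.cnt_Sk_pos 1 N (by omega)
      rw [div_lt_iff₀ hpos] at h2
      have h3 : cnt (Sk 1) N ≤ Nat.primeCounting N + 1 := by
        classical
        have h : upto (Sk 1) N ⊆ insert 1 ((Icc 1 N).filter Nat.Prime) := by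
          intro n hn
          rw [mem_upto] at hn
          rcases Nat.lt_or_ge (ArithmeticFunction.cardFactors n) 1 with h3 | h3
          · have h4 : ArithmeticFunction.cardFactors n = 0 := by omega
            rw [ArithmeticFunction.cardFactors_eq_zero_iff_eq_zero_or_one] at h4
            rw [h4.resolve_left hn.2.1]
            exact Finset.mem_insert_self _ _
          · exact Finset.mem_insert_of_mem (Finset.mem_filter.2 ⟨Finset.mem_Icc.2 hn.1,
              ArithmeticFunction.cardFactors_eq_one_iff_prime.1 (le_antisymm hn.2.2 h3)⟩)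
        refine (Finset.card_le_card h).trans ((Finset.card_insert_le _ _).trans ?_)
        rw [Pool.Agent.Q211.MM.card_primes]
      have h4 : 1 ≤ Nat.primeCounting N := by
        have h5 := Nat.monotone_primeCounting hN
        have h6 : Nat.primeCounting 2 = 1 := by decide
        omega
      have h5 := rec_lac CL.adm X 1 N
      have h6 : upto B 1 = {1} := by
        ext a
        rw [mem_upto, Finset.mem_singleton]
        constructor
        · rintro ⟨h3, -⟩
          omega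
        · rintro rfl
          exact ⟨⟨le_rfl, le_rfl⟩, h1B⟩
      rw [← hB, h6, Finset.sum_singleton] at h5
      have h7 := small_Qs N
      have h8 := hX N
      have h9 : (Nat.primeCounting N : ℝ) ≤ cnt B N + cnt X N + 64 := by
        have : Nat.primeCounting N ≤ cnt B N + cnt X N + 64 := by omega
        exact_mod_cast this
      have h10 : (cnt (Sk 1) N : ℝ) ≤ 2 * Nat.primeCounting N := by
        have : cnt (Sk 1) N ≤ 2 * Nat.primeCounting N := by omega
        exact_mod_cast this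
      have h11 : (Nat.primeCounting N : ℝ) / 2 ≤ cnt B N := by linarith
      have h12 := (hch N hN).1
      calc c * (N / Real.log N) ≤ c0 / 2 * (N / Real.log N) :=
            mul_le_mul_of_nonneg_right (min_le_left _ _) (by positivity)
        _ = c0 * (N / Real.log N) / 2 := by ring
        _ ≤ Nat.primeCounting N / 2 := by linarith
        _ ≤ cnt B N := h11
  · intro N hN
    have h1 := sum_primes_le B (z2 N) N
    have h2 := rec_lac CL.adm X (z2 N) N
    rw [← hB] at h2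
    have h3 : (∑ a ∈ upto B (z2 N), (Nat.primeCounting (N / a) : ℝ)) ≤
        cnt B N + cnt X N + (z2 N : ℝ) ^ 2 * gg N := by
      have h4 : ∑ a ∈ upto B (z2 N), Nat.primeCounting (N / a) ≤
        cnt B N + cnt X N + z2 N ^ 2 * gg N := by omega
      exact_mod_cast h4
    have hl := Pool.Agent.Q211.MM.log_gt_one hN
    have hl0 : 0 < Real.log N := by linarith
    have hN0 : (0 : ℝ) ≤ N := Nat.cast_nonneg N
    have h4 := hX N
    have h5 : (zz N : ℝ) ^ 2 ≤ N / Real.log N ^ 2 := Pool.Agent.Q211.MM.zz_sq_le hN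
    have h6 : (1 : ℝ) ≤ 4 * (N / Real.log N ^ 2) := by
      rw [mul_div_assoc', le_div_iff₀ (by positivity)]
      linarith [log_sq_le (N := N) (by omega)]
    have h7 : (z2 N : ℝ) ^ 2 * gg N ≤ 9 * (N / Real.log N ^ 2) := by
      have h8 : (z2 N : ℝ) ^ 2 * gg N ≤ N / Real.log N ^ 4 * (9 * Real.log N ^ 2) :=
        mul_le_mul (z2_sq_le N) (gg_le hN) (by positivity) (by positivity)
      have h9 : N / Real.log N ^ 4 * (9 * Real.log N ^ 2) = 9 * (N / Real.log N ^ 2) := by
        field_simp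
      rwa [h9] at h8
    have h8 : D * (zz N : ℝ) ^ 2 ≤ D * (N / Real.log N ^ 2) := mul_le_mul_of_nonneg_left h5 hD.le
    have h9 : D ≤ D * (4 * (N / Real.log N ^ 2)) := le_mul_of_one_le_right hD.le h6
    linarith

/-- the same for the products of at least two primes -/
theorem count_CL2 (X : Set ℕ) (D : ℝ) (hD : 0 < D)
    (hX : ∀ N : ℕ, (cnt X N : ℝ) ≤ D * (zz N : ℝ) ^ 2 + D) :
    ∃ c : ℝ, 0 < c ∧ ∃ N0 : ℕ, ∀ N : ℕ, N0 ≤ N →
      c * (N / (Real.log N) ^ (9 / 40 : ℝ)) ≤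
        (cnt {n | Lac CL X n ∧ 2 ≤ ArithmeticFunction.cardFactors n} N : ℝ) := by
  classical
  obtain ⟨c, hc, h⟩ := count_CL X D hD hX
  obtain ⟨c1, C, c1p, Cp, CH⟩ := cheb
  have T : Tendsto (fun N : ℕ => (Real.log (N : ℝ)) ^ (1 - 9 / 40 : ℝ)) atTop atTop :=
    (tendsto_rpow_atTop (by norm_num : (0 : ℝ) < 1 - 9 / 40)).comp
      (Real.tendsto_log_atTop.comp tendsto_natCast_atTop_atTop)
  obtain ⟨N2, hN2⟩ := eventually_atTop.mp (T.eventually_ge_atTop ((C + 1) / (c / 2)))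
  refine ⟨c / 2, by positivity, max 3 N2, fun N hN => ?_⟩
  have a3 : 3 ≤ N := (le_max_left _ _).trans hN
  have a2 : N2 ≤ N := (le_max_right _ _).trans hN
  have N3 : (3 : ℝ) ≤ N := by exact_mod_cast a3
  have Np : (0 : ℝ) < N := by linarith
  have L1 : 1 ≤ Real.log N := (Pool.Agent.Q211.MM.log_gt_one a3).le
  have Lp : 0 < Real.log N := by linarith
  have h1 := h N (by omega)
  have h3 := (CH N (by omega)).2
  have h2 : upto {n | Lac CL X n} N ⊆
      upto {n | Lac CL X n ∧ 2 ≤ ArithmeticFunction.cardFactors n} N ∪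
        (Icc 1 N).filter Nat.Prime ∪ {1} := by
    intro n hn
    rw [mem_upto] at hn
    rw [Finset.mem_union, Finset.mem_union, Finset.mem_singleton, mem_upto, Finset.mem_filter,
      Finset.mem_Icc]
    by_cases h4 : 2 ≤ ArithmeticFunction.cardFactors n
    · exact Or.inl (Or.inl ⟨hn.1, hn.2, h4⟩)
    · rcases Nat.lt_or_ge (ArithmeticFunction.cardFactors n) 1 with h5 | h5
      · refine Or.inr ?_
        have h6 : ArithmeticFunction.cardFactors n = 0 := by omega
        rw [ArithmeticFunction.cardFactors_eq_zero_iff_eq_zero_or_one] at h6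
        omega
      · exact Or.inl (Or.inr ⟨hn.1,
          ArithmeticFunction.cardFactors_eq_one_iff_prime.1 (by omega)⟩)
  have h4 : cnt {n | Lac CL X n} N ≤
      cnt {n | Lac CL X n ∧ 2 ≤ ArithmeticFunction.cardFactors n} N + Nat.primeCounting N + 1 := by
    have h5 := (Finset.card_le_card h2).trans (Finset.card_union_le _ _)
    have h6 := Finset.card_union_le
      (upto {n | Lac CL X n ∧ 2 ≤ ArithmeticFunction.cardFactors n} N) ((Icc 1 N).filter Nat.Prime)
    rw [Finset.card_singleton] at h5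
    rw [Pool.Agent.Q211.MM.card_primes] at h6
    unfold cnt
    omega
  have h5 : (cnt {n | Lac CL X n} N : ℝ) ≤
      cnt {n | Lac CL X n ∧ 2 ≤ ArithmeticFunction.cardFactors n} N + Nat.primeCounting N + 1 := by
    exact_mod_cast h4
  have h6 : (1 : ℝ) ≤ N / Real.log N := by
    rw [le_div_iff₀ Lp, one_mul]
    have := Real.log_le_sub_one_of_pos Np
    linarith
  have h7 : (C + 1) * (N / Real.log N) ≤ c / 2 * (N / (Real.log N) ^ (9 / 40 : ℝ)) := by
    have g1 : (C + 1) / (c / 2) ≤ (Real.log N) ^ (1 - 9 / 40 : ℝ) := hN2 N a2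
    have e : (Real.log N) ^ (1 - 9 / 40 : ℝ) * (Real.log N) ^ (9 / 40 : ℝ) = Real.log N := by
      rw [← Real.rpow_add Lp]
      norm_num
    rw [div_le_iff₀ (by positivity)] at g1
    have g2 := mul_le_mul_of_nonneg_right g1 (by positivity : 0 ≤ (N : ℝ) / Real.log N)
    have kp : 0 < (Real.log N) ^ (9 / 40 : ℝ) := Real.rpow_pos_of_pos Lp _
    have g3 : (Real.log N) ^ (1 - 9 / 40 : ℝ) * (c / 2) * ((N : ℝ) / Real.log N) =
        c / 2 * (N / (Real.log N) ^ (9 / 40 : ℝ)) := by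
      have kp' : 0 < (Real.log N) ^ (1 - 9 / 40 : ℝ) := Real.rpow_pos_of_pos Lp _
      have g4 : (N : ℝ) / Real.log N =
          N / ((Real.log N) ^ (1 - 9 / 40 : ℝ) * (Real.log N) ^ (9 / 40 : ℝ)) := by rw [e]
      rw [g4]
      field_simp
    rw [g3] at g2
    exact g2
  have h8 : c * (N / (Real.log N) ^ (9 / 40 : ℝ)) =
      c / 2 * (N / (Real.log N) ^ (9 / 40 : ℝ)) + c / 2 * (N / (Real.log N) ^ (9 / 40 : ℝ)) := by
    ring
  linarith

end Pool.Agent.Q147.MO
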