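import Pool.Agent.Q147.MO.GreedyR
import Pool.Agent.Q147.MM.Main

/-!
# The structure theorem: a thin set of exceptions
-/

set_option autoImplicit false

namespace Pool.Agent.Q147.MO

open Module Finset
open Pool.Agent.Q147.MM
open Pool.Agent.Y787 (QC mem_QC HypC)

variable {Cc : Type} [Field Cc] [CharZero Cc] {Lt : Submodule (QC Cc) Cc} {l : ℕ → Cc}

theorem one_mem_Gi (C : ℕ → ℕ → Prop) (w l : ℕ → Cc) {R : ℕ} (hR : 0 < R)
    (hw : LinearIndepOn (QC Cc) w (range R : Set ℕ)) {i : ℕ} (hi : i < R) :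
    1 ∈ Gi (QC Cc) (vv w l R) (RS C) R i := by
  classical
  refine ⟨?_, ?_⟩
  · show (1 * R + i) / R ∈ RS C
    rw [div_code hi]
    exact Lac.one
  · intro h
    have h1 : vv w l R (1 * R + i) = w i := by
      rw [vv, mod_code hi, div_code hi, lam_one, mul_one]
    rw [h1] at h
    have h2 : w i ∈ Submodule.span (QC Cc) (w '' ((range R : Set ℕ) \ {i})) := by
      refine Submodule.span_mono ?_ h
      rintro _ ⟨m, ⟨hm, hmi⟩, rfl⟩
      have hm' : Lac C ∅ (m / R) := hm
      have h3 : m / R = 1 := by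
        have h4 : m / R < 2 := by
          rw [Nat.div_lt_iff_lt_mul hR]
          omega
        have := hm'.pos
        omega
      have hmod := Nat.mod_lt m hR
      have hcode : m / R * R + m % R = m := Nat.div_add_mod' m R
      rw [h3] at hcode
      refine ⟨m % R, ⟨by simpa using hmod, ?_⟩, ?_⟩
      · rw [Set.mem_singleton_iff]
        omega
      · rw [vv, h3, lam_one, mul_one]
    have h3 : insert i ((range R : Set ℕ) \ {i}) = (range R : Set ℕ) := by
      rw [Set.insert_sdiff_singleton, Set.insert_eq_of_mem]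
      simpa using hi
    rw [← h3, linearIndepOn_insert (by simp)] at hw
    exact hw.2 h2

variable [HypC Lt]

/-- **A thin set of exceptions.** -/
theorem struct {C : ℕ → ℕ → Prop} (hC : Adm C) (h : Good Lt l) (w : ℕ → Cc) (hw0 : w 0 = 1)
    (R : ℕ) (hR : 0 < R) (hw : LinearIndepOn (QC Cc) w (range R : Set ℕ)) :
    ∃ X : Set ℕ, (∀ N z : ℕ, Bd C N z → cnt X N ≤ 2 * ((R * z) ^ 2 + R)) ∧
      ∀ n : ℕ, Lac C X n → 2 ≤ ArithmeticFunction.cardFactors n → ∀ i < R,
        n ∈ Gi (QC Cc) (fun m => Lt.mkQ (vv w l R m)) (RS C) R i := by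
  classical
  let G : ℕ → Set ℕ := fun i => Gi (QC Cc) (vv w l R) (RS C) R i
  let Gm : ℕ → Set ℕ := fun i => {a | a ∈ Gi (QC Cc) (vv w l R) (RS C) R i ∧ ¬ (i = 0 ∧ a = 1)}
  let G' : ℕ → Set ℕ := fun i => Gi (QC Cc) (fun m => Lt.mkQ (vv w l R m)) (RS C) R i
  let X : Set ℕ := {n | ∃ i < R, n ∈ EE C (G i) \ G i ∨ n ∈ EE C (Gm i) \ G' i}
  have hG : ∀ n : ℕ, Lac C X n → ∀ i < R, n ∈ G i := by
    intro n hn
    induction hn with
    | one => exact fun i hi => one_mem_Gi C w l hR hw hi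
    | mul a q ha hq hc hX ih =>
      intro i hi
      by_contra h1
      exact hX ⟨i, hi, Or.inl ⟨⟨a, q, rfl, ih i hi, ha.pos, hq, hc⟩, h1⟩⟩
  refine ⟨X, fun N z hb => ?_, fun n hn hn2 i hi => ?_⟩
  · have h1 : upto X N ⊆ ((range R).biUnion fun i => upto (EE C (G i) \ G i) N) ∪
        ((range R).biUnion fun i => upto (EE C (Gm i) \ G' i) N) := by
      intro n hn
      rw [mem_upto] at hn
      obtain ⟨hn1, i, hi, hn2⟩ := hn
      rw [Finset.mem_union, Finset.mem_biUnion, Finset.mem_biUnion]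
      rcases hn2 with hn2 | hn2
      · exact Or.inl ⟨i, Finset.mem_range.2 hi, mem_upto.2 ⟨hn1, hn2⟩⟩
      · exact Or.inr ⟨i, Finset.mem_range.2 hi, mem_upto.2 ⟨hn1, hn2⟩⟩
    have h2 := (Finset.card_le_card h1).trans (Finset.card_union_le _ _)
    have h3 : ((range R).biUnion fun i => upto (EE C (G i) \ G i) N).card ≤ (R * z) ^ 2 + R :=
      Finset.card_biUnion_le.trans (excR hC h w R hR hb)
    have h4 : ((range R).biUnion fun i => upto (EE C (Gm i) \ G' i) N).card ≤ (R * z) ^ 2 + R :=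
      Finset.card_biUnion_le.trans (excRM hC h w hw0 R hR hb)
    unfold cnt
    omega
  · have hn1 : n ≠ 1 := by
      rintro rfl
      simp at hn2
    have hX := hn.notMem hn1
    obtain ⟨a, q, rfl, ha, hq, hc⟩ := hn.fac hn1
    by_contra h1
    refine hX ⟨i, hi, Or.inr ⟨⟨a, q, rfl, ⟨hG a ha i hi, ?_⟩, ha.pos, hq, hc⟩, h1⟩⟩
    rintro ⟨-, rfl⟩
    rw [one_mul, ArithmeticFunction.cardFactors_apply_prime hq] at hn2
    omega

/-- **The structure theorem.** -/
theorem mainX {C : ℕ → ℕ → Prop} (hC : Adm C) (h : Good Lt l) (W : Submodule (QC Cc) Cc)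
    [FiniteDimensional (QC Cc) W] :
    ∃ X : Set ℕ, (∀ N z : ℕ, Bd C N z → cnt X N ≤ 2 * (((finrank (QC Cc) W + 1) * z) ^ 2 +
        (finrank (QC Cc) W + 1))) ∧
      ∀ F : Finset ℕ, (∀ n ∈ F, Lac C X n ∧ 2 ≤ ArithmeticFunction.cardFactors n) →
        ∀ u : ℕ → Cc, (∀ n ∈ F, u n ∈ W ⊔ Submodule.span (QC Cc) ({1} : Set Cc)) →
        ∑ n ∈ F, u n * lam l n ∈ Lt → ∀ n ∈ F, u n = 0 := by
  classical
  -- a complement of the line of `1`
  obtain ⟨P, hP⟩ := Submodule.exists_isCompl (Submodule.span (QC Cc) ({1} : Set Cc))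
  let π : Cc →ₗ[QC Cc] Cc := P.subtype ∘ₗ P.projectionOnto _ hP.symm
  let D : Submodule (QC Cc) Cc := W.map π
  have hCP : D ≤ P := by
    rintro _ ⟨x, _, rfl⟩
    exact (P.projectionOnto _ hP.symm x).2
  have hπ : ∀ x, x - π x ∈ Submodule.span (QC Cc) ({1} : Set Cc) := by
    intro x
    have h1 : P.projectionOnto _ hP.symm (x - π x) = 0 := by
      rw [map_sub]
      have h2 : P.projectionOnto _ hP.symm (π x) = P.projectionOnto _ hP.symm x :=
        Submodule.projectionOnto_apply_left hP.symm _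
      rw [h2, sub_self]
    exact (Submodule.projectionOnto_apply_eq_zero_iff hP.symm).1 h1
  have hπ1 : ∀ x ∈ Submodule.span (QC Cc) ({1} : Set Cc), π x = 0 := by
    intro x hx
    have h1 := (Submodule.projectionOnto_apply_eq_zero_iff hP.symm).2 hx
    show ((P.projectionOnto _ hP.symm x : P) : Cc) = 0
    rw [h1]
    rfl
  let r := finrank (QC Cc) D
  have hr : r ≤ finrank (QC Cc) W := Submodule.finrank_map_le π W
  let b := Module.finBasis (QC Cc) D
  let w : ℕ → Cc := fun i => if hi : i - 1 < r ∧ i ≠ 0 then (b ⟨i - 1, hi.1⟩ : Cc) else 1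
  have hw0 : w 0 = 1 := by simp [w]
  have hws : ∀ j : Fin r, w (j.1 + 1) = (b j : Cc) := by
    intro j
    simp [w]
  have hwl : LinearIndepOn (QC Cc) w (range (r + 1) : Set ℕ) := by
    have h1 : LinearIndependent (QC Cc) (Fin.cons 1 (fun j => (b j : Cc)) : Fin (r + 1) → Cc) := by
      rw [linearIndependent_finCons]
      refine ⟨b.linearIndependent.map' D.subtype (Submodule.ker_subtype _), fun h2 => ?_⟩
      have h3 : (1 : Cc) ∈ D := by
        refine (Submodule.span_le.2 ?_) h2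
        rintro _ ⟨j, rfl⟩
        exact (b j).2
      have h4 : (1 : Cc) ∈ Submodule.span (QC Cc) ({1} : Set Cc) ⊓ P :=
        ⟨Submodule.mem_span_singleton_self 1, hCP h3⟩
      rw [hP.inf_eq_bot, Submodule.mem_bot] at h4
      exact one_ne_zero h4
    have h5 : ∀ i : Fin (r + 1), w i.1 = (Fin.cons 1 (fun j => (b j : Cc)) : Fin (r + 1) → Cc) i := by
      intro i
      refine Fin.cases ?_ (fun j => ?_) i
      · rw [Fin.cons_zero]; exact hw0
      · rw [Fin.cons_succ, Fin.val_succ]; exact hws j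
    let e : (range (r + 1) : Set ℕ) → Fin (r + 1) := fun x =>
      ⟨x.1, Finset.mem_range.1 (by exact_mod_cast x.2)⟩
    have h6 := h1.comp e (fun x y hxy => Subtype.ext (by simpa [e] using hxy))
    have h7 : ((Fin.cons 1 (fun j => (b j : Cc)) : Fin (r + 1) → Cc) ∘ e) =
        fun x : (range (r + 1) : Set ℕ) => w x.1 := by
      funext x
      exact (h5 (e x)).symm
    rw [h7] at h6
    exact h6
  obtain ⟨X, hX1, hX2⟩ := struct hC h w hw0 (r + 1) (Nat.succ_pos r) hwl
  refine ⟨X, fun N z hb => (hX1 N z hb).trans ?_, ?_⟩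
  · refine Nat.mul_le_mul_left 2 (Nat.add_le_add (Nat.pow_le_pow_left ?_ 2) ?_)
    · exact Nat.mul_le_mul_right z (by omega)
    · omega
  · intro F hF u hu hsum
    -- coordinates
    have hcoord : ∀ x ∈ W ⊔ Submodule.span (QC Cc) ({1} : Set Cc),
        ∃ c : ℕ → QC Cc, x = ∑ i ∈ range (r + 1), c i • w i := by
      intro x hx
      obtain ⟨a, ha⟩ := Submodule.mem_span_singleton.1 (hπ x)
      have h1 : π x ∈ D := by
        obtain ⟨y, hy, t, ht, rfl⟩ := Submodule.mem_sup.1 hx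
        rw [map_add, hπ1 t ht, add_zero]
        exact ⟨y, hy, rfl⟩
      refine ⟨fun i => if hi : i - 1 < r ∧ i ≠ 0 then b.repr ⟨π x, h1⟩ ⟨i - 1, hi.1⟩ else a, ?_⟩
      rw [Finset.sum_range_succ']
      have h2 : ∑ i ∈ range r, (if hi : i + 1 - 1 < r ∧ i + 1 ≠ 0 then
          b.repr ⟨π x, h1⟩ ⟨i + 1 - 1, hi.1⟩ else a) • w (i + 1) = π x := by
        rw [← Fin.sum_univ_eq_sum_range (fun i => (if hi : i + 1 - 1 < r ∧ i + 1 ≠ 0 then
          b.repr ⟨π x, h1⟩ ⟨i + 1 - 1, hi.1⟩ else a) • w (i + 1)) r]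
        have h3 := congrArg (D.subtype) (b.sum_repr ⟨π x, h1⟩)
        rw [map_sum] at h3
        simp only [map_smul, Submodule.subtype_apply] at h3
        refine Eq.trans (Finset.sum_congr rfl fun j _ => ?_) h3
        rw [hws j]
        simp
      rw [h2]
      simp only [ne_eq, not_true_eq_false, and_false, ↓reduceDIte, hw0]
      rw [ha]
      ring
    choose! c hc using hcoord
    have h1 : ∑ n ∈ F, (∑ i ∈ range (r + 1), c (u n) i • w i) * lam l n ∈ Lt := by
      refine (congrArg (· ∈ Lt) ?_).mpr hsum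
      refine Finset.sum_congr rfl fun n hn => ?_
      rw [← hc (u n) (hu n hn)]
    have h2 := indepM w (r + 1) (RS C) F
      (fun n hn i hi => hX2 n (hF n hn).1 (hF n hn).2 i hi) (fun i n => c (u n) i) h1
    intro n hn
    rw [hc (u n) (hu n hn)]
    refine Finset.sum_eq_zero fun i hi => ?_
    rw [h2 n hn i (Finset.mem_range.1 hi), zero_smul]

end Pool.Agent.Q147.MO
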