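import Pool.Agent.Q147.MO.NT
import Pool.Agent.Q147.MO.Struct
import Pool.Agent.Q147.MM.Seq

/-!
# The relation `a ≤ ψ q`; main theorems
-/

set_option autoImplicit false

namespace Pool.Agent.Q147.MO

open Module Finset Filter Topology
open Pool.Agent.Q147.MM
open Pool.Agent.Y787 (QC mem_QC HypC)

/-- the relation `a ≤ ψ q` -/
def CP (ψ : ℕ → ℕ) (a q : ℕ) : Prop := a ≤ ψ q

theorem CP.adm (ψ : ℕ → ℕ) (h : ∀ q : ℕ, q.Prime → ψ q < q) : Adm (CP ψ) where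
  mono hab hc := hab.trans hc
  lt _ hq hc := lt_of_le_of_lt hc (h _ hq)

theorem CP.bd (ψ : ℕ → ℕ) (h : Monotone ψ) (N : ℕ) : Bd (CP ψ) N (ψ N) := by
  intro a q ha _ hc hN
  exact le_trans hc (h ((Nat.le_mul_of_pos_left q ha).trans hN))

/-- **Densities for the relation `a ≤ ψ q`.** -/
theorem dens_CP (ψ : ℕ → ℕ) (M : ℕ) (hM : ∀ᶠ q : ℕ in atTop, ψ q ^ 3 ≤ q ∧ q ≤ ψ q ^ M)
    (X : Set ℕ) (D : ℝ) (hX : ∀ N : ℕ, (cnt X N : ℝ) ≤ D * ((ψ N : ℝ) ^ 2 + 1)) (k : ℕ) :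
    Tendsto (fun N : ℕ =>
      (cnt (Sk (k + 2) \ {n | Lac (CP ψ) X n ∧ 2 ≤ ArithmeticFunction.cardFactors n}) N : ℝ) /
        cnt (Sk (k + 2)) N) atTop (𝓝 0) := by
  obtain ⟨q0, hq0⟩ := eventually_atTop.1 hM
  refine lac_dense2 (CP ψ) X (4 * (M + 1)) (zK M)
    (fun N => (q0 + 1) * zK M N ^ (M + 1)) (zK_ev M) ?_ ?_ ?_ k
  · intro N a q ha haz _ _ hc
    have h1 : ψ q < a := by
      unfold CP at hc
      omega
    have hz1 : 1 ≤ zK M N := ha.trans haz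
    have h5 : a ≤ zK M N ^ (M + 1) := haz.trans (Nat.le_self_pow (Nat.succ_ne_zero M) _)
    rcases Nat.lt_or_ge q q0 with h2 | h2
    · calc a * q ≤ zK M N ^ (M + 1) * (q0 + 1) := Nat.mul_le_mul h5 (by omega)
        _ = (q0 + 1) * zK M N ^ (M + 1) := Nat.mul_comm _ _
    · have h3 := (hq0 q h2).2
      calc a * q ≤ zK M N * zK M N ^ M := by
            refine Nat.mul_le_mul haz (h3.trans (Nat.pow_le_pow_left ?_ M))
            omega
        _ = zK M N ^ (M + 1) := by rw [pow_succ, Nat.mul_comm]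
        _ ≤ (q0 + 1) * zK M N ^ (M + 1) := Nat.le_mul_of_pos_left _ (Nat.succ_pos q0)
  · intro k
    refine negl_rpow (q0 + 1) (1 / 2) (by norm_num) _ ?_ k
    filter_upwards [eventually_ge_atTop 1] with N hN
    refine ⟨Nat.cast_nonneg _, ?_⟩
    have h1 : (((zK M N ^ (M + 1) : ℕ) : ℝ)) ^ 2 ≤ N := by exact_mod_cast zK_pow M N hN
    rw [← Real.sqrt_eq_rpow]
    push_cast
    refine mul_le_mul_of_nonneg_left ?_ (by positivity)
    have h2 := Real.le_sqrt_of_sq_le h1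
    push_cast at h2
    exact h2
  · intro k
    refine negl_rpow (2 * |D|) (2 / 3) (by norm_num) _ ?_ k
    filter_upwards [hM, eventually_ge_atTop 1] with N hN hN1
    have hNr : (1 : ℝ) ≤ N := by exact_mod_cast hN1
    refine ⟨Nat.cast_nonneg _, (hX N).trans ?_⟩
    have h1 : (ψ N : ℝ) ^ 3 ≤ N := by exact_mod_cast hN.1
    have h2 : (ψ N : ℝ) ^ 2 ≤ (N : ℝ) ^ (2 / 3 : ℝ) := by
      have h3 : (ψ N : ℝ) ^ 2 = ((ψ N : ℝ) ^ 3) ^ (2 / 3 : ℝ) := by
        rw [← Real.rpow_natCast, ← Real.rpow_natCast, ← Real.rpow_mul (Nat.cast_nonneg _)]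
        norm_num
      rw [h3]
      exact Real.rpow_le_rpow (by positivity) h1 (by norm_num)
    have h3 : (1 : ℝ) ≤ (N : ℝ) ^ (2 / 3 : ℝ) := Real.one_le_rpow hNr (by norm_num)
    calc D * ((ψ N : ℝ) ^ 2 + 1) ≤ |D| * ((ψ N : ℝ) ^ 2 + 1) :=
          mul_le_mul_of_nonneg_right (le_abs_self D) (by positivity)
      _ ≤ |D| * (2 * (N : ℝ) ^ (2 / 3 : ℝ)) := mul_le_mul_of_nonneg_left (by linarith) (abs_nonneg D)
      _ = 2 * |D| * (N : ℝ) ^ (2 / 3 : ℝ) := by ring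

/-- **Diagonal sets for all degrees.** -/
theorem diagAll (B : ℕ → Set ℕ)
    (h : ∀ m k : ℕ, Tendsto (fun N : ℕ => (cnt (Sk (k + 2) \ B m) N : ℝ) / cnt (Sk (k + 2)) N)
      atTop (𝓝 0)) :
    ∃ C : Set ℕ, C ⊆ B 0 ∧
      (∀ k : ℕ, Tendsto (fun N : ℕ => (cnt (Sk (k + 2) \ C) N : ℝ) / cnt (Sk (k + 2)) N)
        atTop (𝓝 0)) ∧
      ∀ m, ∃ n₀ : ℕ, ∀ n ∈ C, n₀ ≤ n → n ∈ B m := by
  classical
  -- decreasing intersections
  let D : ℕ → Set ℕ := fun m => {n | ∀ i < m + 1, n ∈ B i}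
  have hD : ∀ m k, Tendsto (fun N : ℕ => (cnt (Sk (k + 2) \ D m) N : ℝ) / cnt (Sk (k + 2)) N)
      atTop (𝓝 0) := by
    intro m k
    have h1 : Tendsto (fun N : ℕ => ∑ i ∈ range (m + 1),
        (cnt (Sk (k + 2) \ B i) N : ℝ) / cnt (Sk (k + 2)) N) atTop (𝓝 0) := by
      have := tendsto_finsetSum (range (m + 1)) fun i _ => h i k
      simpa using this
    refine squeeze_zero (fun N => by positivity) (fun N => ?_) h1
    rw [← Finset.sum_div]
    refine div_le_div_of_nonneg_right ?_ (Nat.cast_nonneg _)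
    have h2 : upto (Sk (k + 2) \ D m) N ⊆
        (range (m + 1)).biUnion fun i => upto (Sk (k + 2) \ B i) N := by
      intro n hn
      rw [mem_upto] at hn
      rw [Finset.mem_biUnion]
      by_contra h3
      refine hn.2.2 ?_
      intro i hi
      by_contra h5
      exact h3 ⟨i, Finset.mem_range.2 hi, mem_upto.2 ⟨hn.1, hn.2.1, h5⟩⟩
    have h3 := (Finset.card_le_card h2).trans Finset.card_biUnion_le
    unfold cnt
    exact_mod_cast h3
  have hthr : ∀ m : ℕ, ∃ t : ℕ, ∀ N : ℕ, t ≤ N → ∀ k ∈ range (m + 1),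
      (cnt (Sk (k + 2) \ D m) N : ℝ) / cnt (Sk (k + 2)) N < 1 / ((m : ℝ) + 1) := by
    intro m
    refine eventually_atTop.1 ?_
    rw [Filter.eventually_all_finset]
    intro k _
    exact (tendsto_order.1 (hD m k)).2 _ (by positivity)
  choose t ht using hthr
  let M : ℕ → ℕ := fun m => m + ∑ j ∈ range (m + 1), t j
  have hMt : ∀ m, t m ≤ M m := fun m =>
    (Finset.single_le_sum (f := t) (fun _ _ => Nat.zero_le _)
      (Finset.mem_range.2 (Nat.lt_succ_self m))).trans (Nat.le_add_left _ _)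
  have hMm : ∀ m, m ≤ M m := fun m => Nat.le_add_right _ _
  have hMmono : StrictMono M := by
    refine strictMono_nat_of_lt_succ fun m => ?_
    show m + ∑ j ∈ range (m + 1), t j < m + 1 + ∑ j ∈ range (m + 1 + 1), t j
    rw [Finset.sum_range_succ t (m + 1)]
    omega
  let C : Set ℕ := {n | n ∈ B 0 ∧ ∀ m, M m ≤ n → n ∈ D m}
  have key : ∀ k N j : ℕ, k ≤ j → M j ≤ N → N < M (j + 1) →
      (cnt (Sk (k + 2) \ C) N : ℝ) / cnt (Sk (k + 2)) N < 1 / ((j : ℝ) + 1) := by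
    intro k N j hkj hj hj1
    refine lt_of_le_of_lt ?_ (ht j N ((hMt j).trans hj) k (Finset.mem_range.2 (by omega)))
    refine div_le_div_of_nonneg_right ?_ (Nat.cast_nonneg _)
    have h2 : upto (Sk (k + 2) \ C) N ⊆ upto (Sk (k + 2) \ D j) N := by
      intro n hn
      rw [mem_upto] at hn ⊢
      refine ⟨hn.1, hn.2.1, fun h3 => hn.2.2 ⟨h3 0 (Nat.succ_pos j), fun m hm => ?_⟩⟩
      have h4 : m ≤ j := by
        by_contra h4
        have h5 : M (j + 1) ≤ M m := hMmono.monotone (by omega)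
        have := hn.1.2
        omega
      exact fun i hi => h3 i (by omega)
    exact_mod_cast Finset.card_le_card h2
  refine ⟨C, fun n hn => hn.1, fun k => ?_, fun m => ⟨M m, fun n hn hmn =>
    (hn.2 m hmn) m (Nat.lt_succ_self m)⟩⟩
  rw [tendsto_order]
  constructor
  · intro a ha
    exact Eventually.of_forall fun N => lt_of_lt_of_le ha (by positivity)
  · intro a ha
    obtain ⟨m, hm⟩ := exists_nat_one_div_lt ha
    filter_upwards [eventually_ge_atTop (M (m + k))] with N hN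
    -- the block of `N`
    obtain ⟨j, hj1, hj2⟩ : ∃ j, M j ≤ N ∧ N < M (j + 1) := by
      have hex : ∃ j, N < M (j + 1) := ⟨N, (Nat.lt_succ_self N).trans_le (hMm (N + 1))⟩
      refine ⟨Nat.find hex, ?_, Nat.find_spec hex⟩
      rcases Nat.eq_zero_or_pos (Nat.find hex) with h0 | h0
      · rw [h0]
        exact (hMmono.monotone (Nat.zero_le (m + k))).trans hN
      · have := Nat.find_min hex (m := Nat.find hex - 1) (by omega)
        have h1 : Nat.find hex - 1 + 1 = Nat.find hex := by omega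
        rw [h1] at this
        omega
    have hmj : m + k ≤ j := by
      by_contra h4
      have h5 : M (j + 1) ≤ M (m + k) := hMmono.monotone (by omega)
      omega
    have h3 := key k N j (by omega) hj1 hj2
    have h4 : 1 / ((j : ℝ) + 1) ≤ 1 / ((m : ℝ) + 1) := by
      apply one_div_le_one_div_of_le (by positivity)
      have : (m : ℝ) ≤ j := by exact_mod_cast (by omega : m ≤ j)
      linarith
    linarith

/-- from a negligible complement to density one -/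
theorem dens_one (S B : Set ℕ) (hS : ∀ᶠ N in atTop, 0 < cnt S N)
    (h : Tendsto (fun N : ℕ => (cnt (S \ B) N : ℝ) / cnt S N) atTop (𝓝 0)) :
    Tendsto (fun N : ℕ => (cnt (B ∩ S) N : ℝ) / cnt S N) atTop (𝓝 1) := by
  classical
  have h1 : Tendsto (fun N : ℕ => 1 - (cnt (S \ B) N : ℝ) / cnt S N) atTop (𝓝 1) := by
    simpa using h.const_sub 1
  refine (tendsto_congr' ?_).1 h1
  filter_upwards [hS] with N hN
  have hpos : (0 : ℝ) < cnt S N := by exact_mod_cast hN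
  rw [eq_div_iff hpos.ne', sub_mul, div_mul_cancel₀ _ hpos.ne', one_mul]
  have h2 : cnt (B ∩ S) N + cnt (S \ B) N = cnt S N := by
    unfold cnt
    rw [← Finset.card_union_of_disjoint]
    · congr 1
      ext n
      rw [Finset.mem_union, mem_upto, mem_upto, mem_upto]
      constructor
      · rintro (h | h)
        · exact ⟨h.1, h.2.2⟩
        · exact ⟨h.1, h.2.1⟩
      · rintro ⟨h3, h4⟩
        by_cases h5 : n ∈ B
        · exact Or.inl ⟨h3, h5, h4⟩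
        · exact Or.inr ⟨h3, h4, h5⟩
    · rw [Finset.disjoint_left]
      intro n hn hn'
      rw [mem_upto] at hn hn'
      exact hn'.2.2 hn.2.1
  have h3 : (cnt (B ∩ S) N : ℝ) + cnt (S \ B) N = cnt S N := by exact_mod_cast h2
  linarith

variable {Cc : Type} [Field Cc] [CharZero Cc] {Lt : Submodule (QC Cc) Cc} [HypC Lt] {l : ℕ → Cc}

/-- the coefficient space spanned by `1` and the elements of `W` contains no relation -/
def FreeOn (Lt : Submodule (QC Cc) Cc) (l : ℕ → Cc) (W : Submodule (QC Cc) Cc) (B : Set ℕ) : Prop :=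
  ∀ F : Finset ℕ, (∀ n ∈ F, n ∈ B) →
    ∀ u : ℕ → Cc, (∀ n ∈ F, u n ∈ W ⊔ Submodule.span (QC Cc) ({1} : Set Cc)) →
      ∑ n ∈ F, u n * lam l n ∈ Lt → ∀ n ∈ F, u n = 0

/-- **Relations `a ≤ ψ q`.** -/
theorem mainPsi (h : Good Lt l) (W : Submodule (QC Cc) Cc) [FiniteDimensional (QC Cc) W]
    (ψ : ℕ → ℕ) (hψ : Monotone ψ) (hψ1 : ∀ q : ℕ, q.Prime → ψ q < q) :
    ∃ X : Set ℕ, (∀ N : ℕ, cnt X N ≤ 2 * (finrank (QC Cc) W + 1) ^ 2 * (ψ N ^ 2 + 1)) ∧
      FreeOn Lt l W {n | Lac (CP ψ) X n ∧ 2 ≤ ArithmeticFunction.cardFactors n} ∧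
      ((∃ M : ℕ, ∀ᶠ q : ℕ in atTop, ψ q ^ 3 ≤ q ∧ q ≤ ψ q ^ M) → ∀ k : ℕ,
        Tendsto (fun N : ℕ => (cnt (Sk (k + 2) \
          {n | Lac (CP ψ) X n ∧ 2 ≤ ArithmeticFunction.cardFactors n}) N : ℝ) /
            cnt (Sk (k + 2)) N) atTop (𝓝 0)) := by
  obtain ⟨X, hX1, hX2⟩ := mainX (CP.adm ψ hψ1) h W
  have hX3 : ∀ N : ℕ, cnt X N ≤ 2 * (finrank (QC Cc) W + 1) ^ 2 * (ψ N ^ 2 + 1) := by
    intro N
    refine (hX1 N (ψ N) (CP.bd ψ hψ N)).trans ?_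
    have h1 : finrank (QC Cc) W + 1 ≤ (finrank (QC Cc) W + 1) ^ 2 :=
      Nat.le_self_pow (by norm_num) _
    calc 2 * (((finrank (QC Cc) W + 1) * ψ N) ^ 2 + (finrank (QC Cc) W + 1)) ≤
        2 * (((finrank (QC Cc) W + 1) * ψ N) ^ 2 + (finrank (QC Cc) W + 1) ^ 2) :=
          Nat.mul_le_mul_left 2 (Nat.add_le_add_left h1 _)
      _ = 2 * (finrank (QC Cc) W + 1) ^ 2 * (ψ N ^ 2 + 1) := by ring
  refine ⟨X, hX3, hX2, ?_⟩
  rintro ⟨M, hM⟩ k
  refine dens_CP ψ M hM X (2 * ((finrank (QC Cc) W : ℝ) + 1) ^ 2) (fun N => ?_) k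
  exact_mod_cast hX3 N

/-- **One large set for all degrees.** -/
theorem mainOne (h : Good Lt l) (W : Submodule (QC Cc) Cc) [FiniteDimensional (QC Cc) W] :
    ∃ B : Set ℕ, (∀ n ∈ B, 2 ≤ ArithmeticFunction.cardFactors n) ∧
      (∀ k : ℕ, Tendsto (fun N : ℕ => (cnt (Sk (k + 2) \ B) N : ℝ) / cnt (Sk (k + 2)) N) atTop
        (𝓝 0)) ∧
      (∃ c : ℝ, 0 < c ∧ ∃ N0 : ℕ, ∀ N : ℕ, N0 ≤ N →
        c * (N / (Real.log N) ^ (9 / 40 : ℝ)) ≤ (cnt B N : ℝ)) ∧ FreeOn Lt l W B := by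
  obtain ⟨X, hX1, hX2⟩ := mainX CL.adm h W
  set R : ℕ := finrank (QC Cc) W + 1 with hR
  have hX : ∀ N : ℕ, (cnt X N : ℝ) ≤ (2 * (R : ℝ) ^ 2) * (zz N : ℝ) ^ 2 + 2 * (R : ℝ) ^ 2 := by
    intro N
    have h1 : cnt X N ≤ 2 * R ^ 2 * zz N ^ 2 + 2 * R ^ 2 := by
      refine (hX1 N (zz N) (CL.bd N)).trans ?_
      have h2 : R ≤ R ^ 2 := Nat.le_self_pow (by norm_num) _
      calc 2 * ((R * zz N) ^ 2 + R) ≤ 2 * ((R * zz N) ^ 2 + R ^ 2) :=
            Nat.mul_le_mul_left 2 (Nat.add_le_add_left h2 _)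
        _ = 2 * R ^ 2 * zz N ^ 2 + 2 * R ^ 2 := by ring
    exact_mod_cast h1
  have hR0 : 0 < 2 * (R : ℝ) ^ 2 := by
    have : (0 : ℝ) < R := by exact_mod_cast Nat.succ_pos _
    positivity
  exact ⟨{n | Lac CL X n ∧ 2 ≤ ArithmeticFunction.cardFactors n}, fun n hn => hn.2,
    dens_CL X _ hX, count_CL2 X _ hR0 hX, hX2⟩

/-- **One set for all degrees and countably many coefficient spaces.** -/
theorem mainSeqAll (h : Good Lt l) (W : ℕ → Submodule (QC Cc) Cc)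
    (hW : ∀ m, FiniteDimensional (QC Cc) (W m)) :
    ∃ B : Set ℕ, (∀ n ∈ B, 2 ≤ ArithmeticFunction.cardFactors n) ∧
      (∀ k : ℕ, Tendsto (fun N : ℕ => (cnt (Sk (k + 2) \ B) N : ℝ) / cnt (Sk (k + 2)) N) atTop
        (𝓝 0)) ∧ FreeOn Lt l (W 0) B ∧ ∀ m, ∃ n₀ : ℕ, FreeOn Lt l (W m) {n | n ∈ B ∧ n₀ ≤ n} := by
  have h1 := fun m => mainOne h (W m)
  choose B hB1 hB2 hB3 hB4 using h1
  obtain ⟨C, hC0, hC1, hC2⟩ := diagAll B hB2
  refine ⟨C, fun n hn => hB1 0 n (hC0 hn), hC1, fun F hF => hB4 0 F fun n hn => hC0 (hF n hn),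
    fun m => ?_⟩
  obtain ⟨n₀, hn₀⟩ := hC2 m
  exact ⟨n₀, fun F hF => hB4 m F fun n hn => hn₀ n (hF n hn).1 (hF n hn).2⟩

end Pool.Agent.Q147.MO
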