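import Pool.Agent.Q147.MM.Ana

/-!
# Products of rapidly increasing primes

For an admissible relation `C` (for instance `a ^ K ≤ q`) the integers `p₁ ⋯ p_k` with
`C (p₁ ⋯ p_j) p_{j+1}` for all `j`, none of whose initial products `p₁ ⋯ p_j` is in a given set `X`.
-/

set_option autoImplicit false

namespace Pool.Agent.Q147.MO

open Finset Filter Topology
open Pool.Agent.Q147.MM

/-- the growth function of the rough integers -/
def gg (n : ℕ) : ℕ := (Nat.log 2 n + 1) ^ 2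

theorem gg_mono {m n : ℕ} (h : m ≤ n) : gg m ≤ gg n :=
  Nat.pow_le_pow_left (Nat.add_le_add_right (Nat.log_mono_right h) 1) 2

theorem two_le_gg {n : ℕ} (hn : 2 ≤ n) : 2 ≤ gg n := by
  have h1 : 1 ≤ Nat.log 2 n := Nat.log_pos (by norm_num) hn
  have h2 : (1 + 1) ^ 2 ≤ gg n := Nat.pow_le_pow_left (by omega) 2
  omega

/-- admissible relations between a number and a prime -/
structure Adm (C : ℕ → ℕ → Prop) : Prop where
  mono : ∀ {a b q : ℕ}, b ≤ a → C a q → C b q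
  lt : ∀ {a q : ℕ}, 0 < a → q.Prime → C a q → a < q

/-- the products `p₁ ⋯ p_k` of primes such that `C (p₁ ⋯ p_j) p_{j+1}` for all `j` and no
`p₁ ⋯ p_j` (`j ≥ 1`) belongs to `X` -/
inductive Lac (C : ℕ → ℕ → Prop) (X : Set ℕ) : ℕ → Prop
  | one : Lac C X 1
  | mul (a q : ℕ) : Lac C X a → q.Prime → C a q → a * q ∉ X → Lac C X (a * q)

theorem Lac.pos {C : ℕ → ℕ → Prop} {X : Set ℕ} {n : ℕ} (h : Lac C X n) : 0 < n := by
  induction h with
  | one => exact Nat.one_pos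
  | mul a q _ hq _ _ ih => exact Nat.mul_pos ih hq.pos

theorem Lac.mono {C : ℕ → ℕ → Prop} {X Y : Set ℕ} (hXY : Y ⊆ X) {n : ℕ} (h : Lac C X n) :
    Lac C Y n := by
  induction h with
  | one => exact Lac.one
  | mul a q _ hq hc hX ih => exact Lac.mul a q ih hq hc fun h => hX (hXY h)

theorem uniq {a q a' q' : ℕ} (ha : 0 < a) (ha' : 0 < a') (hq : q.Prime) (hq' : q'.Prime)
    (h1 : a < q) (h2 : a' < q') (h : a * q = a' * q') : a = a' ∧ q = q' := by
  have key : q = q' := by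
    have h3 : q ∣ a' * q' := h ▸ Dvd.intro_left a rfl
    have h4 : q' ∣ a * q := h ▸ Dvd.intro_left a' rfl
    rcases (hq.dvd_mul).1 h3 with h5 | h5
    · rcases (hq'.dvd_mul).1 h4 with h6 | h6
      · have := Nat.le_of_dvd ha' h5
        have := Nat.le_of_dvd ha h6
        omega
      · exact ((Nat.prime_dvd_prime_iff_eq hq' hq).1 h6).symm
    · exact (Nat.prime_dvd_prime_iff_eq hq hq').1 h5
  subst key
  exact ⟨Nat.eq_of_mul_eq_mul_right hq.pos h, rfl⟩

/-- decomposition -/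
theorem Lac.fac {C : ℕ → ℕ → Prop} {X : Set ℕ} {n : ℕ} (h : Lac C X n) (h1 : n ≠ 1) :
    ∃ a q, n = a * q ∧ Lac C X a ∧ q.Prime ∧ C a q := by
  cases h with
  | one => exact absurd rfl h1
  | mul a q ha hq hc hX => exact ⟨a, q, rfl, ha, hq, hc⟩

theorem Lac.notMem {C : ℕ → ℕ → Prop} {X : Set ℕ} {n : ℕ} (h : Lac C X n) (h1 : n ≠ 1) :
    n ∉ X := by
  cases h with
  | one => exact absurd rfl h1
  | mul a q ha hq hc hX => exact hX

/-- the relation `a * gg (a * q) ≤ q` -/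
def CL (a q : ℕ) : Prop := a * gg (a * q) ≤ q

theorem CL.adm : Adm CL where
  mono {a b q} hab hc :=
    (Nat.mul_le_mul hab (gg_mono (Nat.mul_le_mul_right q hab))).trans hc
  lt {a q} ha hq h := by
    have h1 : 2 ≤ a * q := hq.two_le.trans (Nat.le_mul_of_pos_left q ha)
    have h2 := Nat.mul_le_mul_left a (two_le_gg h1)
    have h3 : a * gg (a * q) ≤ q := h
    omega

/-- the relation `a < q`, `a ^ K ≤ q` -/
def CK (K a q : ℕ) : Prop := a < q ∧ a ^ K ≤ q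

theorem CK.adm (K : ℕ) : Adm (CK K) where
  mono {a b q} hab hc := ⟨hab.trans_lt hc.1, (Nat.pow_le_pow_left hab K).trans hc.2⟩
  lt {a q} _ _ h := h.1

/-- `z` is a bound for the cofactors of the products up to `N` -/
def Bd (C : ℕ → ℕ → Prop) (N z : ℕ) : Prop :=
  ∀ a q : ℕ, 0 < a → q.Prime → C a q → a * q ≤ N → a ≤ z

theorem log_sq_le_gg {n : ℕ} (hn : 1 ≤ n) : Real.log n ^ 2 ≤ (gg n : ℝ) := by
  have h0 : (0 : ℝ) ≤ Real.log n := Real.log_natCast_nonneg n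
  have h1 : Real.log n ≤ (Nat.log 2 n : ℝ) + 1 := by
    have h2 : n < 2 ^ (Nat.log 2 n + 1) := Nat.lt_pow_succ_log_self (by norm_num) n
    have h3 : (n : ℝ) < 2 ^ (Nat.log 2 n + 1) := by exact_mod_cast h2
    have hn0 : (0 : ℝ) < n := by exact_mod_cast hn
    have h4 := Real.log_lt_log hn0 h3
    rw [Real.log_pow] at h4
    have h5 : Real.log 2 < 1 := by
      have := Real.log_two_lt_d9
      linarith
    push_cast at h4
    have h6 : (0 : ℝ) ≤ (Nat.log 2 n : ℝ) := Nat.cast_nonneg _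
    nlinarith
  have h2 : ((gg n : ℕ) : ℝ) = ((Nat.log 2 n : ℝ) + 1) ^ 2 := by
    unfold gg
    push_cast
    ring
  rw [h2]
  exact pow_le_pow_left₀ h0 h1 2

theorem gg_le {n : ℕ} (hn : 3 ≤ n) : (gg n : ℝ) ≤ 9 * Real.log n ^ 2 := by
  have h0 := Pool.Agent.Q211.MM.log_gt_one hn
  have h1 : (Nat.log 2 n : ℝ) + 1 ≤ 3 * Real.log n := by
    have h2 : 2 ^ Nat.log 2 n ≤ n := Nat.pow_log_le_self 2 (by omega)
    have h3 : (2 : ℝ) ^ Nat.log 2 n ≤ n := by exact_mod_cast h2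
    have h4 := Real.log_le_log (by positivity) h3
    rw [Real.log_pow] at h4
    have h5 : 1 / 2 < Real.log 2 := by
      have := Real.log_two_gt_d9
      linarith
    have h6 : (0 : ℝ) ≤ (Nat.log 2 n : ℝ) := Nat.cast_nonneg _
    nlinarith
  have h2 : ((gg n : ℕ) : ℝ) = ((Nat.log 2 n : ℝ) + 1) ^ 2 := by
    unfold gg
    push_cast
    ring
  rw [h2]
  calc ((Nat.log 2 n : ℝ) + 1) ^ 2 ≤ (3 * Real.log n) ^ 2 :=
        pow_le_pow_left₀ (by positivity) h1 2
    _ = 9 * Real.log n ^ 2 := by ring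

theorem exp_two_lt : Real.exp 2 < 8 := by
  have h1 : Real.exp 2 = Real.exp 1 * Real.exp 1 := by
    rw [← Real.exp_add]
    norm_num
  have h2 := Real.exp_one_lt_d9
  have h3 := Real.exp_pos 1
  rw [h1]
  nlinarith

/-- the cofactor is small -/
theorem CL.bd (N : ℕ) : Bd CL N (zz N) := by
  intro a q ha hq hc hN
  unfold CL at hc
  set n := a * q with hn
  have hqn : q ≤ n := Nat.le_mul_of_pos_left q ha
  have h2n : 2 ≤ n := hq.two_le.trans hqn
  have h8 : 8 ≤ n := by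
    by_contra h
    have h1 : gg n ≤ n := (Nat.le_mul_of_pos_left (gg n) ha).trans (hc.trans hqn)
    have h2 : n < 8 := by omega
    interval_cases n <;> revert h1 <;> decide
  have hn8 : (8 : ℝ) ≤ n := by exact_mod_cast h8
  have hNn : (n : ℝ) ≤ N := by exact_mod_cast hN
  have hlog : 0 < Real.log n := Real.log_pos (by linarith)
  have hlogN : 0 < Real.log N := Real.log_pos (by linarith)
  -- `a * log n ≤ √n`
  have h1 : a * a * gg n ≤ n := by
    calc a * a * gg n = a * (a * gg n) := by ring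
      _ ≤ a * q := Nat.mul_le_mul_left a hc
  have h2 : ((a : ℝ) * Real.log n) ^ 2 ≤ n := by
    have h3 : (a : ℝ) * a * gg n ≤ n := by exact_mod_cast h1
    have h4 := log_sq_le_gg (n := n) (by omega)
    have h5 : (0 : ℝ) ≤ (a : ℝ) * a := by positivity
    nlinarith
  have h3 : (a : ℝ) * Real.log n ≤ √(n : ℝ) := Real.le_sqrt_of_sq_le h2
  have h4 : Real.log N / √(N : ℝ) ≤ Real.log n / √(n : ℝ) := by
    have h5 := Real.log_div_sqrt_antitoneOn (a := (n : ℝ)) (b := (N : ℝ))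
      (by rw [Set.mem_Ici]; linarith [exp_two_lt]) (by rw [Set.mem_Ici]; linarith [exp_two_lt]) hNn
    exact h5
  have hsn : 0 < √(n : ℝ) := Real.sqrt_pos.2 (by linarith)
  have hsN : 0 < √(N : ℝ) := Real.sqrt_pos.2 (by linarith)
  refine Nat.le_floor ?_
  rw [le_div_iff₀ hlogN]
  rw [div_le_div_iff₀ hsN hsn] at h4
  have h6 : (a : ℝ) * Real.log N * √(n : ℝ) ≤ √(N : ℝ) * √(n : ℝ) := by
    calc (a : ℝ) * Real.log N * √(n : ℝ) = a * (Real.log N * √(n : ℝ)) := by ring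
      _ ≤ a * (Real.log n * √(N : ℝ)) := mul_le_mul_of_nonneg_left h4 (Nat.cast_nonneg _)
      _ = (a * Real.log n) * √(N : ℝ) := by ring
      _ ≤ √(n : ℝ) * √(N : ℝ) := mul_le_mul_of_nonneg_right h3 hsN.le
      _ = √(N : ℝ) * √(n : ℝ) := by ring
  exact le_of_mul_le_mul_right h6 hsn

/-- the integer part of `√N / (log N) ^ 2` -/
noncomputable def z2 (N : ℕ) : ℕ := ⌊√(N : ℝ) / Real.log N ^ 2⌋₊

theorem z2_sq_le (N : ℕ) : ((z2 N : ℕ) : ℝ) ^ 2 ≤ (N : ℝ) / Real.log N ^ 4 := by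
  have h0 : 0 ≤ √(N : ℝ) / Real.log N ^ 2 := div_nonneg (Real.sqrt_nonneg _) (by positivity)
  have h1 : ((z2 N : ℕ) : ℝ) ≤ √(N : ℝ) / Real.log N ^ 2 := Nat.floor_le h0
  calc ((z2 N : ℕ) : ℝ) ^ 2 ≤ (√(N : ℝ) / Real.log N ^ 2) ^ 2 := by gcongr
    _ = (N : ℝ) / Real.log N ^ 4 := by
        rw [div_pow, Real.sq_sqrt (Nat.cast_nonneg _)]
        ring

/-- `z2 N` is at least `N ^ (1/4)` -/
theorem le_z2_pow {N : ℕ} (hN : 17 ^ 16 ≤ N) : N ≤ z2 N ^ 4 := by
  have hN0 : (0 : ℝ) < N := by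
    have : 0 < N := by omega
    exact_mod_cast this
  have hN1 : ((17 : ℝ) ^ 16) ≤ N := by exact_mod_cast hN
  obtain ⟨u, hu⟩ : ∃ u : ℝ, u = (N : ℝ) ^ (1 / 16 : ℝ) := ⟨_, rfl⟩
  have hu0 : 0 < u := by
    rw [hu]
    positivity
  have hu16 : u ^ 16 = N := by
    rw [hu, ← Real.rpow_natCast, ← Real.rpow_mul hN0.le]
    norm_num
  have hu17 : 17 ≤ u := by
    by_contra h
    push Not at h
    have h1 : u ^ 16 < 17 ^ 16 := pow_lt_pow_left₀ h hu0.le (by norm_num)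
    linarith
  have hsq : √(N : ℝ) = u ^ 8 := by
    rw [← hu16, show u ^ 16 = (u ^ 8) ^ 2 by ring, Real.sqrt_sq (by positivity)]
  have hlog : Real.log N ≤ 16 * u := by
    have h1 := Real.log_le_rpow_div hN0.le (show (0 : ℝ) < 1 / 16 by norm_num)
    rw [← hu] at h1
    linarith
  have hlog0 : 0 < Real.log N := Real.log_pos (by linarith)
  have h1 : u ^ 4 + 1 ≤ √(N : ℝ) / Real.log N ^ 2 := by
    rw [hsq, le_div_iff₀ (by positivity)]
    have h2 : (u ^ 4 + 1) * Real.log N ^ 2 ≤ (u ^ 4 + 1) * (16 * u) ^ 2 :=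
      mul_le_mul_of_nonneg_left (pow_le_pow_left₀ hlog0.le hlog 2) (by positivity)
    have h3 : (u ^ 4 + 1) * (16 * u) ^ 2 ≤ u ^ 8 := by
      have h4 : (u ^ 4 + 1) * 256 ≤ u ^ 6 := by
        have h5 : 289 ≤ u ^ 2 := by nlinarith
        have h6 : 289 * u ^ 4 ≤ u ^ 6 := by
          calc 289 * u ^ 4 ≤ u ^ 2 * u ^ 4 := mul_le_mul_of_nonneg_right h5 (by positivity)
            _ = u ^ 6 := by ring
        have h7 : 256 ≤ 33 * u ^ 4 := by
          have : 1 ≤ u ^ 2 := by linarith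
          nlinarith
        linarith
      calc (u ^ 4 + 1) * (16 * u) ^ 2 = (u ^ 4 + 1) * 256 * u ^ 2 := by ring
        _ ≤ u ^ 6 * u ^ 2 := mul_le_mul_of_nonneg_right h4 (by positivity)
        _ = u ^ 8 := by ring
    linarith
  have h2 : u ^ 4 ≤ (z2 N : ℝ) := by
    have h3 := Nat.lt_floor_add_one (√(N : ℝ) / Real.log N ^ 2)
    unfold z2
    linarith
  have h3 : (N : ℝ) ≤ (z2 N : ℝ) ^ 4 := by
    rw [← hu16, show u ^ 16 = (u ^ 4) ^ 4 by ring]
    exact pow_le_pow_left₀ (by positivity) h2 4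
  exact_mod_cast h3

theorem one_le_z2 {N : ℕ} (hN : 17 ^ 16 ≤ N) : 1 ≤ z2 N := by
  have h := le_z2_pow hN
  by_contra h1
  have : z2 N = 0 := by omega
  rw [this] at h
  simp at h
  omega

/-- `gg N * z2 N ^ 2` is negligible -/
theorem negl_z2 (k : ℕ) :
    Tendsto (fun N : ℕ => ((z2 N : ℝ) ^ 2 * gg N) / cnt (Sk (k + 1)) N) atTop (𝓝 0) := by
  obtain ⟨c0, C0, hc0, hC0, hcheb⟩ := cheb
  have hlogN : Tendsto (fun N : ℕ => Real.log (N : ℝ)) atTop atTop :=
    Real.tendsto_log_atTop.comp tendsto_natCast_atTop_atTop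
  have hlim : Tendsto (fun N : ℕ => 9 * c0⁻¹ * (Real.log (N : ℝ))⁻¹) atTop (𝓝 0) := by
    have := (tendsto_inv_atTop_zero.comp hlogN).const_mul (9 * c0⁻¹)
    simpa using this
  refine squeeze_zero' (Eventually.of_forall fun N => by positivity) ?_ hlim
  filter_upwards [eventually_ge_atTop 3] with N hN
  have hl : 0 < Real.log (N : ℝ) := Real.log_pos (by exact_mod_cast (by omega : 1 < N))
  have hNpos : (0 : ℝ) < N := by exact_mod_cast (by omega : 0 < N)
  have hcnt : c0 * (N / Real.log N) ≤ (cnt (Sk (k + 1)) N : ℝ) :=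
    le_trans (hcheb N (by omega)).1
      (by exact_mod_cast Pool.Agent.Q24.MM.primeCounting_le_cnt k N)
  have hpos : 0 < c0 * (N / Real.log N) := by positivity
  have h1 : ((z2 N : ℕ) : ℝ) ^ 2 * gg N ≤ (N : ℝ) / Real.log N ^ 4 * (9 * Real.log N ^ 2) :=
    mul_le_mul (z2_sq_le N) (gg_le hN) (Nat.cast_nonneg _) (by positivity)
  calc ((z2 N : ℕ) : ℝ) ^ 2 * gg N / (cnt (Sk (k + 1)) N : ℝ)
      ≤ ((N : ℝ) / Real.log N ^ 4 * (9 * Real.log N ^ 2)) / (c0 * (N / Real.log N)) := by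
        gcongr
    _ = 9 * c0⁻¹ * (Real.log (N : ℝ))⁻¹ := by
        field_simp

theorem CK.bd (K N z : ℕ) (h : N < (z + 1) ^ (K + 1)) : Bd (CK K) N z := by
  intro a q _ _ hc hN
  by_contra h1
  have h2 : (z + 1) ^ (K + 1) ≤ a ^ (K + 1) := Nat.pow_le_pow_left (by omega) _
  have h3 : a ^ (K + 1) ≤ a * q := by
    rw [pow_succ, Nat.mul_comm]
    exact Nat.mul_le_mul_left a hc.2
  omega

end Pool.Agent.Q147.MO
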